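import Pool.Agent.R14.FX.Defs

/-!
Project FX, piece C: the affine group over `F_q[[X]]` (helper925).
-/

set_option autoImplicit false

namespace R14.FX.C

open R14.FX Finset Filter Topology PowerSeries

section

variable {F : Type} [Field F] {q : ℕ} (e : Fin q ≃ F)

/-- the word of length `n` of a power series -/
noncomputable def w (n : ℕ) (f : F⟦X⟧) : Fin n → Fin q := fun i => e.symm (coeff (i : ℕ) f)

/-- a section of `w` -/
noncomputable def s (n : ℕ) (x : Fin n → Fin q) : F⟦X⟧ :=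
  PowerSeries.mk (fun i => if h : i < n then e (x ⟨i, h⟩) else 0)

theorem w_s (n : ℕ) (x : Fin n → Fin q) : w e n (s e n x) = x := by
  funext i
  simp [w, s, coeff_mk]

theorem w_surj (n : ℕ) (x : Fin n → Fin q) : ∃ f, w e n f = x := ⟨s e n x, w_s e n x⟩

theorem w_eq_iff (n : ℕ) (f f' : F⟦X⟧) : w e n f = w e n f' ↔ (X : F⟦X⟧) ^ n ∣ f - f' := by
  rw [PowerSeries.X_pow_dvd_iff]
  constructor
  · intro h m hm
    have := congrFun h ⟨m, hm⟩
    simp only [w, EmbeddingLike.apply_eq_iff_eq] at this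
    rw [map_sub, this, sub_self]
  · intro h
    funext i
    have := h i i.2
    rw [map_sub, sub_eq_zero] at this
    simp only [w, this]

/-- the affine maps on the words -/
noncomputable def aff (u : F⟦X⟧ˣ) (b : F⟦X⟧) (n : ℕ) : Equiv.Perm (Fin n → Fin q) where
  toFun x := w e n (u * s e n x + b)
  invFun x := w e n (((u⁻¹ : F⟦X⟧ˣ) : F⟦X⟧) * (s e n x - b))
  left_inv := by
    intro x
    conv_rhs => rw [← w_s e n x]
    rw [w_eq_iff]
    have h : (X : F⟦X⟧) ^ n ∣ s e n (w e n (u * s e n x + b)) - (u * s e n x + b) := by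
      rw [← w_eq_iff e, w_s]
    have h2 : ((u⁻¹ : F⟦X⟧ˣ) : F⟦X⟧) * (s e n (w e n (u * s e n x + b)) - b) - s e n x
        = ((u⁻¹ : F⟦X⟧ˣ) : F⟦X⟧) * (s e n (w e n (u * s e n x + b)) - (u * s e n x + b)) := by
      have h3 : ((u⁻¹ : F⟦X⟧ˣ) : F⟦X⟧) * (u : F⟦X⟧) = 1 := Units.inv_mul u
      linear_combination (s e n x) * h3
    rw [h2]
    exact Dvd.dvd.mul_left h _
  right_inv := by
    intro x
    conv_rhs => rw [← w_s e n x]
    rw [w_eq_iff]
    have h : (X : F⟦X⟧) ^ n ∣ s e n (w e n (((u⁻¹ : F⟦X⟧ˣ) : F⟦X⟧) * (s e n x - b)))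
        - ((u⁻¹ : F⟦X⟧ˣ) : F⟦X⟧) * (s e n x - b) := by
      rw [← w_eq_iff e, w_s]
    have h2 : (u : F⟦X⟧) * s e n (w e n (((u⁻¹ : F⟦X⟧ˣ) : F⟦X⟧) * (s e n x - b))) + b - s e n x
        = (u : F⟦X⟧) * (s e n (w e n (((u⁻¹ : F⟦X⟧ˣ) : F⟦X⟧) * (s e n x - b)))
          - ((u⁻¹ : F⟦X⟧ˣ) : F⟦X⟧) * (s e n x - b)) := by
      have h3 : (u : F⟦X⟧) * ((u⁻¹ : F⟦X⟧ˣ) : F⟦X⟧) = 1 := Units.mul_inv u
      linear_combination (s e n x - b) * h3
    rw [h2]
    exact Dvd.dvd.mul_left h _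

theorem aff_w (u : F⟦X⟧ˣ) (b : F⟦X⟧) (n : ℕ) (f : F⟦X⟧) :
    aff e u b n (w e n f) = w e n (u * f + b) := by
  show w e n (u * s e n (w e n f) + b) = w e n (u * f + b)
  rw [w_eq_iff]
  have h : (X : F⟦X⟧) ^ n ∣ s e n (w e n f) - f := by
    rw [← w_eq_iff e, w_s]
  have h2 : (u : F⟦X⟧) * s e n (w e n f) + b - (u * f + b)
      = (u : F⟦X⟧) * (s e n (w e n f) - f) := by ring
  rw [h2]
  exact Dvd.dvd.mul_left h _

/-- the affine group -/
noncomputable def G : Subgroup (∀ n : ℕ, Equiv.Perm (Fin n → Fin q)) where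
  carrier := {g | ∃ (u : F⟦X⟧ˣ) (b : F⟦X⟧), ∀ (n : ℕ) (f : F⟦X⟧),
    g n (w e n f) = w e n (u * f + b)}
  mul_mem' := by
    rintro g g' ⟨u, b, h⟩ ⟨u', b', h'⟩
    refine ⟨u * u', u * b' + b, fun n f => ?_⟩
    show g n (g' n (w e n f)) = _
    rw [h', h]
    congr 1
    rw [Units.val_mul]
    ring
  one_mem' := by
    refine ⟨1, 0, fun n f => ?_⟩
    show w e n f = _
    rw [Units.val_one, one_mul, add_zero]
  inv_mem' := by
    rintro g ⟨u, b, h⟩
    refine ⟨u⁻¹, -(((u⁻¹ : F⟦X⟧ˣ) : F⟦X⟧) * b), fun n f => ?_⟩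
    show (g n)⁻¹ (w e n f) = _
    rw [Equiv.Perm.inv_eq_iff_eq, h]
    congr 1
    have h3 : (u : F⟦X⟧) * ((u⁻¹ : F⟦X⟧ˣ) : F⟦X⟧) = 1 := Units.mul_inv u
    linear_combination (b - f) * h3

theorem aff_mem (u : F⟦X⟧ˣ) (b : F⟦X⟧) : (aff e u b) ∈ G e := ⟨u, b, fun n f => aff_w e u b n f⟩

theorem w_cast (n : ℕ) (f : F⟦X⟧) : (fun i : Fin n => w e (n + 1) f i.castSucc) = w e n f := by
  funext i
  simp [w]

theorem G_le : G e ≤ AutT q := by
  rintro g ⟨u, b, h⟩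
  intro n x
  obtain ⟨f, rfl⟩ := w_surj e (n + 1) x
  rw [h, w_cast, w_cast, h]

theorem dec {h : F⟦X⟧} {j : ℕ} (h1 : ∀ m < j, coeff m h = 0) (h2 : coeff j h ≠ 0) :
    ∃ c : F⟦X⟧ˣ, h = (X : F⟦X⟧) ^ j * (c : F⟦X⟧) := by
  obtain ⟨c, hc⟩ := (PowerSeries.X_pow_dvd_iff).mpr h1
  have h3 : coeff 0 c ≠ 0 := by
    have h4 : coeff (0 + j) (X ^ j * c) = coeff 0 c := PowerSeries.coeff_X_pow_mul c j 0
    rw [← hc, zero_add] at h4
    rwa [← h4]
  have h5 : IsUnit c := by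
    rw [PowerSeries.isUnit_iff_constantCoeff]
    rw [PowerSeries.coeff_zero_eq_constantCoeff_apply] at h3
    exact isUnit_iff_ne_zero.mpr h3
  obtain ⟨c', rfl⟩ := h5
  exact ⟨c', hc⟩

theorem FD_dec {n : ℕ} {f f' : F⟦X⟧} {j : ℕ} (h : FD (w e n f) (w e n f') j) :
    ∃ c : F⟦X⟧ˣ, f - f' = (X : F⟦X⟧) ^ j * (c : F⟦X⟧) := by
  obtain ⟨h1, i, hi, h2⟩ := h
  apply dec
  · intro m hm
    have hmn : m < n := lt_trans hm (hi ▸ i.2)
    have := h1 ⟨m, hmn⟩ hm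
    simp only [w, EmbeddingLike.apply_eq_iff_eq] at this
    rw [map_sub, this, sub_self]
  · intro h3
    apply h2
    rw [map_sub, sub_eq_zero] at h3
    simp only [w, hi, h3]

theorem pairs (n : ℕ) (x y x' y' : Fin n → Fin q) (j : ℕ) (h : FD x y j) (h' : FD x' y' j) :
    ∃ g ∈ G e, g n x = x' ∧ g n y = y' := by
  obtain ⟨f, rfl⟩ := w_surj e n x
  obtain ⟨f', rfl⟩ := w_surj e n y
  obtain ⟨f₁, rfl⟩ := w_surj e n x'
  obtain ⟨f₁', rfl⟩ := w_surj e n y'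
  obtain ⟨v, hv⟩ := FD_dec e h
  obtain ⟨v₁, hv₁⟩ := FD_dec e h'
  refine ⟨aff e (v₁ * v⁻¹) (f₁ - ((v₁ * v⁻¹ : F⟦X⟧ˣ) : F⟦X⟧) * f), aff_mem e _ _, ?_, ?_⟩
  · rw [aff_w]
    congr 1
    ring
  · rw [aff_w]
    congr 1
    have h3 : ((v⁻¹ : F⟦X⟧ˣ) : F⟦X⟧) * (v : F⟦X⟧) = 1 := Units.inv_mul v
    rw [Units.val_mul]
    linear_combination (-(v₁ : F⟦X⟧) * ((v⁻¹ : F⟦X⟧ˣ) : F⟦X⟧)) * hv + hv₁
      - (v₁ : F⟦X⟧) * (X : F⟦X⟧) ^ j * h3

theorem levTrans : LevTrans (G e) := by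
  intro n x y
  obtain ⟨f, rfl⟩ := w_surj e n x
  obtain ⟨f', rfl⟩ := w_surj e n y
  refine ⟨aff e 1 (f' - f), aff_mem e _ _, ?_⟩
  rw [aff_w]
  congr 1
  rw [Units.val_one]
  ring

theorem ball (n : ℕ) (g : ∀ n : ℕ, Equiv.Perm (Fin n → Fin q)) (hg : g ∈ G e) :
    BallOrEmpty (by classical exact univ.filter (fun x => g n x = x)) := by
  obtain ⟨u, b, h⟩ := hg
  have hfix : ∀ f : F⟦X⟧, g n (w e n f) = w e n f ↔
      (X : F⟦X⟧) ^ n ∣ ((u : F⟦X⟧) - 1) * f + b := by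
    intro f
    rw [h, w_eq_iff]
    have : (u : F⟦X⟧) * f + b - f = ((u : F⟦X⟧) - 1) * f + b := by ring
    rw [this]
  by_cases hne : ∃ x, g n x = x
  · right
    obtain ⟨x₀, hx₀⟩ := hne
    obtain ⟨f₀, rfl⟩ := w_surj e n x₀
    rw [hfix] at hx₀
    have hfix2 : ∀ f : F⟦X⟧, g n (w e n f) = w e n f ↔
        (X : F⟦X⟧) ^ n ∣ ((u : F⟦X⟧) - 1) * (f - f₀) := by
      intro f
      rw [hfix]
      have h4 : ((u : F⟦X⟧) - 1) * f + b
          = ((u : F⟦X⟧) - 1) * (f - f₀) + (((u : F⟦X⟧) - 1) * f₀ + b) := by ring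
      rw [h4]
      exact (dvd_add_left hx₀)
    by_cases hu : (X : F⟦X⟧) ^ n ∣ (u : F⟦X⟧) - 1
    · refine ⟨0, w e n f₀, Nat.zero_le _, fun x => ?_⟩
      obtain ⟨f, rfl⟩ := w_surj e n x
      constructor
      · intro _ i hi
        exact absurd hi (Nat.not_lt_zero _)
      · intro _
        simp only [mem_filter, mem_univ, true_and]
        rw [hfix2]
        exact Dvd.dvd.mul_right hu _
    · have hex : ∃ m, m < n ∧ coeff m ((u : F⟦X⟧) - 1) ≠ 0 := by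
        by_contra hcon
        push Not at hcon
        exact hu ((PowerSeries.X_pow_dvd_iff).mpr hcon)
      classical
      obtain ⟨hv1, hv2⟩ := Nat.find_spec hex
      have hv3 : ∀ m < Nat.find hex, coeff m ((u : F⟦X⟧) - 1) = 0 := by
        intro m hm
        have := Nat.find_min hex hm
        by_contra hcon
        exact this ⟨lt_trans hm hv1, hcon⟩
      generalize Nat.find hex = v at hv1 hv2 hv3
      obtain ⟨c, hc⟩ := dec hv3 hv2
      refine ⟨n - v, w e n f₀, Nat.sub_le _ _, fun x => ?_⟩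
      obtain ⟨f, rfl⟩ := w_surj e n x
      have hkey : g n (w e n f) = w e n f ↔ (X : F⟦X⟧) ^ (n - v) ∣ f - f₀ := by
        rw [hfix2, hc]
        have h5 : (X : F⟦X⟧) ^ n = X ^ v * X ^ (n - v) := by
          rw [← pow_add]; congr 1; omega
        rw [h5, mul_assoc]
        rw [mul_dvd_mul_iff_left (pow_ne_zero v PowerSeries.X_ne_zero)]
        exact (Units.dvd_mul_left)
      constructor
      · intro hx i hi
        have hx' : g n (w e n f) = w e n f := by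
          simpa using hx
        rw [hkey, PowerSeries.X_pow_dvd_iff] at hx'
        have := hx' i hi
        rw [map_sub, sub_eq_zero] at this
        simp only [w, this]
      · intro hx
        simp only [mem_filter, mem_univ, true_and]
        rw [hkey, PowerSeries.X_pow_dvd_iff]
        intro m hm
        have := hx ⟨m, lt_of_lt_of_le hm (Nat.sub_le _ _)⟩ hm
        simp only [w, EmbeddingLike.apply_eq_iff_eq] at this
        rw [map_sub, this, sub_self]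
  · left
    rw [Finset.filter_eq_empty_iff]
    intro x _ hx
    exact hne ⟨x, hx⟩

end

theorem main : StmC := by
  intro q hq
  obtain ⟨p, k, hp, hk, rfl⟩ := hq
  have : Fact p.Prime := ⟨hp.nat_prime⟩
  have hcard : Nat.card (GaloisField p k) = p ^ k := GaloisField.card p k hk.ne'
  have : Finite (GaloisField p k) := Nat.finite_of_card_ne_zero (by
    rw [hcard]; exact pow_ne_zero _ hp.nat_prime.ne_zero)
  let e : Fin (p ^ k) ≃ GaloisField p k := (Finite.equivFinOfCardEq hcard).symm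
  exact ⟨G e, G_le e, levTrans e, pairs e, ball e⟩

end R14.FX.C
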