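import Pool.Agent.R14.FX.Defs

set_option autoImplicit false

namespace R14.FX.D

open R14.FX Finset

/-- the words with first letter `a`, without the first letter -/
def sl {n d : ℕ} (F : Finset (Fin (n + 1) → Fin d)) (a : Fin d) : Finset (Fin n → Fin d) :=
  univ.filter fun t => (Fin.cons a t : Fin (n + 1) → Fin d) ∈ F

theorem split {n d : ℕ} (F : Finset (Fin (n + 1) → Fin d)) (g : (Fin (n + 1) → Fin d) → ℝ) :
    ∑ x ∈ F, g x = ∑ a : Fin d, ∑ t ∈ sl F a, g (Fin.cons a t) := by
  have h1 : ∑ x ∈ F, g x = ∑ x : Fin (n + 1) → Fin d, if x ∈ F then g x else 0 := by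
    rw [Finset.sum_ite_mem, Finset.univ_inter]
  rw [h1, ← (Fin.consEquiv (fun _ : Fin (n + 1) => Fin d)).sum_comp, Fintype.sum_prod_type]
  refine Finset.sum_congr rfl fun a _ => ?_
  rw [sl, Finset.sum_filter]
  rfl

theorem fd_succ {n d : ℕ} (a b : Fin d) (t s : Fin n → Fin d) (j : ℕ) :
    FD (Fin.cons a t : Fin (n + 1) → Fin d) (Fin.cons b s) (j + 1) ↔ a = b ∧ FD t s j := by
  constructor
  · rintro ⟨h1, i, hi, h2⟩
    refine ⟨by simpa using h1 0 (by simp), fun i hi => ?_, ?_⟩
    · simpa using h1 i.succ (by simpa using hi)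
    · refine Fin.cases (fun hi _ => ?_) (fun i hi h2 => ?_) i hi h2
      · simp at hi
      · exact ⟨i, by simpa using hi, by simpa using h2⟩
  · rintro ⟨rfl, h1, i, hi, h2⟩
    refine ⟨fun i => ?_, i.succ, by simpa using hi, by simpa using h2⟩
    refine Fin.cases (fun _ => ?_) (fun i hi => ?_) i
    · simp
    · simpa using h1 i (by simpa using hi)

theorem fd_zero {n d : ℕ} (a b : Fin d) (t s : Fin n → Fin d) :
    FD (Fin.cons a t : Fin (n + 1) → Fin d) (Fin.cons b s) 0 ↔ a ≠ b := by
  constructor
  · rintro ⟨_, i, hi, h2⟩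
    have : i = 0 := Fin.ext hi
    subst this
    simpa using h2
  · intro h
    exact ⟨fun i hi => absurd hi (Nat.not_lt_zero _), 0, rfl, by simpa using h⟩

open Classical in
theorem prs_eq {n d : ℕ} (F : Finset (Fin n → Fin d)) (j : ℕ) :
    prs F j = ∑ x ∈ F, ∑ y ∈ F, if FD x y j then (1 : ℝ) else 0 := by
  unfold prs
  rw [← Finset.sum_product' F F (fun x y => if FD x y j then (1 : ℝ) else 0), Finset.sum_boole]

theorem prs_succ {n d : ℕ} (F : Finset (Fin (n + 1) → Fin d)) (j : ℕ) :
    prs F (j + 1) = ∑ a : Fin d, prs (sl F a) j := by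
  classical
  rw [prs_eq, split]
  refine Finset.sum_congr rfl fun a _ => ?_
  rw [prs_eq]
  refine Finset.sum_congr rfl fun t _ => ?_
  rw [split]
  rw [Finset.sum_eq_single a]
  · refine Finset.sum_congr rfl fun s _ => ?_
    simp only [fd_succ, true_and]
  · intro b _ hb
    refine Finset.sum_eq_zero fun s _ => ?_
    rw [if_neg]
    rw [fd_succ]
    exact fun h => hb h.1.symm
  · intro h
    exact absurd (Finset.mem_univ a) h

theorem prs_zero {n d : ℕ} (F : Finset (Fin (n + 1) → Fin d)) :
    prs F 0 = ∑ a : Fin d, ∑ b : Fin d,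
      if a ≠ b then ((sl F a).card : ℝ) * ((sl F b).card : ℝ) else 0 := by
  classical
  rw [prs_eq, split]
  refine Finset.sum_congr rfl fun a _ => ?_
  have h : ∀ t ∈ sl F a, (∑ y ∈ F, if FD (Fin.cons a t : Fin (n + 1) → Fin d) y 0 then (1 : ℝ)
      else 0) = ∑ b : Fin d, if a ≠ b then ((sl F b).card : ℝ) else 0 := by
    intro t _
    rw [split]
    refine Finset.sum_congr rfl fun b _ => ?_
    simp only [fd_zero]
    by_cases hab : a ≠ b
    · simp [hab]
    · simp [hab]
  rw [Finset.sum_congr rfl h, Finset.sum_const, nsmul_eq_mul, Finset.mul_sum]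
  refine Finset.sum_congr rfl fun b _ => ?_
  by_cases hab : a ≠ b
  · simp [hab]
  · simp [hab]

theorem card_split {n d : ℕ} (F : Finset (Fin (n + 1) → Fin d)) :
    (F.card : ℝ) = ∑ a : Fin d, ((sl F a).card : ℝ) := by
  have := split F (fun _ => 1)
  simpa using this

theorem card_le {n d : ℕ} (F : Finset (Fin n → Fin d)) : (F.card : ℝ) ≤ (d : ℝ) ^ n := by
  have h := Finset.card_le_univ F
  rw [Fintype.card_fun, Fintype.card_fin, Fintype.card_fin] at h
  exact_mod_cast h

theorem main : StmD := by
  intro n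
  induction n with
  | zero =>
    intro d F _
    unfold wsum
    rw [Finset.range_zero, Finset.sum_empty]
    by_cases h : F.Nonempty
    · rw [if_pos h]
      have : (1 : ℝ) ≤ F.card := by exact_mod_cast Finset.card_pos.2 h
      linarith
    · rw [if_neg h]
      simp
  | succ n ih =>
    intro d F hd
    have hd0 : (0 : ℝ) < d := by exact_mod_cast hd
    obtain ⟨u, hu⟩ : ∃ u : Fin d → ℝ, u = fun a => if (sl F a).Nonempty then 1 else 0 := ⟨_, rfl⟩
    have hu0 : ∀ a, 0 ≤ u a := by intro a; rw [hu]; dsimp only; split_ifs <;> norm_num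
    have hu1 : ∀ a, u a ≤ 1 := by intro a; rw [hu]; dsimp only; split_ifs <;> norm_num
    have huu : ∀ a, u a * u a = u a := by
      intro a; rw [hu]; dsimp only; split_ifs <;> norm_num
    have hN : ∀ a, ((sl F a).card : ℝ) ≤ (d : ℝ) ^ n * u a := by
      intro a
      rw [hu]
      dsimp only
      split_ifs with h
      · rw [mul_one]; exact card_le _
      · rw [Finset.not_nonempty_iff_eq_empty] at h
        rw [h]; simp
    have hw : wsum F = (∑ a : Fin d, wsum (sl F a)) + 1 / (d : ℝ) ^ (2 * n + 1) * prs F 0 := by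
      unfold wsum
      rw [Finset.sum_range_succ']
      congr 1
      rw [Finset.sum_comm]
      refine Finset.sum_congr rfl fun j _ => ?_
      rw [prs_succ, Finset.mul_sum, Nat.add_sub_add_right]
    have hsum : (∑ a : Fin d, wsum (sl F a)) ≤ ∑ a : Fin d, (((sl F a).card : ℝ) - u a) := by
      refine Finset.sum_le_sum fun a _ => ?_
      have := ih d (sl F a) hd
      rw [hu]
      exact this
    rw [Finset.sum_sub_distrib, ← card_split] at hsum
    obtain ⟨c, hc⟩ : ∃ c : ℝ, c = ∑ a : Fin d, u a := ⟨_, rfl⟩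
    have hc0 : 0 ≤ c := by rw [hc]; exact Finset.sum_nonneg fun a _ => hu0 a
    have hcd : c ≤ d := by
      rw [hc]
      calc ∑ a : Fin d, u a ≤ ∑ _a : Fin d, (1 : ℝ) := Finset.sum_le_sum fun a _ => hu1 a
        _ = d := by simp
    have hp : prs F 0 ≤ (d : ℝ) ^ (2 * n) * (c * c - c) := by
      rw [prs_zero]
      have h1 : ∀ a b : Fin d, (if a ≠ b then ((sl F a).card : ℝ) * ((sl F b).card : ℝ) else 0) ≤
          (d : ℝ) ^ (2 * n) * (u a * u b - if a = b then u a else 0) := by
        intro a b
        by_cases hab : a = b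
        · subst hab
          simp [huu]
        · rw [if_pos hab, if_neg hab, sub_zero]
          calc ((sl F a).card : ℝ) * ((sl F b).card : ℝ) ≤
              ((d : ℝ) ^ n * u a) * ((d : ℝ) ^ n * u b) :=
                mul_le_mul (hN a) (hN b) (by positivity)
                  (mul_nonneg (by positivity) (hu0 a))
            _ = (d : ℝ) ^ (2 * n) * (u a * u b) := by
                rw [two_mul, pow_add]; ring
      refine (Finset.sum_le_sum fun a _ => Finset.sum_le_sum fun b _ => h1 a b).trans (le_of_eq ?_)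
      simp only [← Finset.mul_sum, Finset.sum_sub_distrib, Finset.sum_ite_eq, Finset.mem_univ,
        if_true]
      rw [← Finset.sum_mul, ← hc]
    have hpp : 1 / (d : ℝ) ^ (2 * n + 1) * prs F 0 ≤ (c * c - c) / d := by
      have h1 : 1 / (d : ℝ) ^ (2 * n + 1) * prs F 0 ≤
          1 / (d : ℝ) ^ (2 * n + 1) * ((d : ℝ) ^ (2 * n) * (c * c - c)) :=
        mul_le_mul_of_nonneg_left hp (by positivity)
      have h2 : 1 / (d : ℝ) ^ (2 * n + 1) * ((d : ℝ) ^ (2 * n) * (c * c - c)) =
          (c * c - c) / d := by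
        rw [pow_succ]
        field_simp
      linarith
    have hlast : (c * c - c) / d ≤ c - (if F.Nonempty then 1 else 0) := by
      by_cases h : F.Nonempty
      · rw [if_pos h]
        have hc1 : 1 ≤ c := by
          obtain ⟨x, hx⟩ := h
          have hx' : Fin.tail x ∈ sl F (x 0) := by
            rw [sl, Finset.mem_filter]
            exact ⟨Finset.mem_univ _, by rw [Fin.cons_self_tail]; exact hx⟩
          have h1 : u (x 0) = 1 := by
            rw [hu]
            dsimp only
            rw [if_pos ⟨_, hx'⟩]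
          rw [hc, ← h1]
          exact Finset.single_le_sum (fun a _ => hu0 a) (Finset.mem_univ (x 0))
        rw [div_le_iff₀ hd0]
        nlinarith
      · rw [if_neg h, sub_zero]
        have hc' : c = 0 := by
          rw [hc]
          refine Finset.sum_eq_zero fun a _ => ?_
          rw [hu]
          dsimp only
          rw [if_neg]
          rintro ⟨t, ht⟩
          rw [sl, Finset.mem_filter] at ht
          exact h ⟨_, ht.2⟩
        rw [hc']
        simp
    rw [hw]
    linarith

end R14.FX.D
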