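import Pool.Agent.R14.FX.Defs2
import Pool.Agent.R14.FX.D

/-! Piece D2 of project FX: deterministic inequality with the excess at the last level. -/

set_option autoImplicit false

namespace R14.FX.D2

open R14.FX R14.FX.D Finset

theorem lastEx_split {n d : ℕ} (F : Finset (Fin (n + 2) → Fin d)) :
    lastEx F = ∑ a : Fin d, lastEx (sl F a) := by
  unfold lastEx
  rw [← (Fin.consEquiv (fun _ : Fin (n + 1) => Fin d)).sum_comp, Fintype.sum_prod_type]
  refine Finset.sum_congr rfl fun a _ => Finset.sum_congr rfl fun t _ => ?_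
  congr 2
  congr 1
  ext b
  rw [Finset.mem_filter, Finset.mem_filter, sl, Finset.mem_filter, Fin.cons_snoc_eq_snoc_cons]
  exact ⟨fun h => ⟨h.1, Finset.mem_univ _, h.2⟩, fun h => ⟨h.1, h.2.2⟩⟩

theorem lastEx_zero {d : ℕ} (F : Finset (Fin (0 + 1) → Fin d)) :
    lastEx F ≤ (F.card : ℝ) - (if F.Nonempty then 1 else 0) := by
  classical
  unfold lastEx
  rw [Fintype.sum_eq_single (fun i : Fin 0 => i.elim0) (fun v hv =>
    absurd (funext fun i : Fin 0 => i.elim0) hv)]
  have h1 : (univ.filter (fun a : Fin d => (Fin.snoc (fun i : Fin 0 => i.elim0) a :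
      Fin (0 + 1) → Fin d) ∈ F)).card ≤ F.card := by
    refine Finset.card_le_card_of_injOn
      (fun a => (Fin.snoc (fun i : Fin 0 => i.elim0) a : Fin (0 + 1) → Fin d)) ?_ ?_
    · intro a ha
      exact (Finset.mem_filter.mp ha).2
    · intro a _ b _ hab
      have h2 : (Fin.snoc (fun i : Fin 0 => i.elim0) a : Fin (0 + 1) → Fin d) (Fin.last 0)
          = (Fin.snoc (fun i : Fin 0 => i.elim0) b : Fin (0 + 1) → Fin d) (Fin.last 0) :=
        congrFun hab (Fin.last 0)
      rwa [Fin.snoc_last, Fin.snoc_last] at h2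
  by_cases h : F.Nonempty
  · rw [if_pos h]
    have h2 : 1 ≤ F.card := Finset.card_pos.2 h
    have h3 : (univ.filter (fun a : Fin d => (Fin.snoc (fun i : Fin 0 => i.elim0) a :
      Fin (0 + 1) → Fin d) ∈ F)).card - 1 ≤ F.card - 1 := by omega
    calc (((univ.filter (fun a : Fin d => (Fin.snoc (fun i : Fin 0 => i.elim0) a :
      Fin (0 + 1) → Fin d) ∈ F)).card - 1 : ℕ) : ℝ) ≤ ((F.card - 1 : ℕ) : ℝ) := by
          exact_mod_cast h3
      _ = (F.card : ℝ) - 1 := by
          rw [Nat.cast_sub h2, Nat.cast_one]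
  · rw [if_neg h]
    have h2 : F.card = 0 := by
      rw [Finset.not_nonempty_iff_eq_empty] at h
      rw [h, Finset.card_empty]
    have h3 : (univ.filter (fun a : Fin d => (Fin.snoc (fun i : Fin 0 => i.elim0) a :
      Fin (0 + 1) → Fin d) ∈ F)).card - 1 = 0 := by omega
    rw [h3, h2]
    simp

theorem main : StmD2 := by
  intro n
  induction n with
  | zero =>
    intro d F _
    rw [Finset.range_zero, Finset.sum_empty, add_zero]
    exact lastEx_zero F
  | succ n ih =>
    intro d F hd
    have hd0 : (0 : ℝ) < d := by exact_mod_cast hd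
    obtain ⟨u, hu⟩ : ∃ u : Fin d → ℝ, u = fun a => if (sl F a).Nonempty then 1 else 0 := ⟨_, rfl⟩
    have hu0 : ∀ a, 0 ≤ u a := by intro a; rw [hu]; dsimp only; split_ifs <;> norm_num
    have hu1 : ∀ a, u a ≤ 1 := by intro a; rw [hu]; dsimp only; split_ifs <;> norm_num
    have huu : ∀ a, u a * u a = u a := by
      intro a; rw [hu]; dsimp only; split_ifs <;> norm_num
    have hN : ∀ a, ((sl F a).card : ℝ) ≤ (d : ℝ) ^ (n + 1) * u a := by
      intro a
      rw [hu]
      dsimp only
      split_ifs with h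
      · rw [mul_one]; exact card_le _
      · rw [Finset.not_nonempty_iff_eq_empty] at h
        rw [h]; simp
    have hw : lastEx F + ∑ j ∈ range (n + 1),
        (1 / (d : ℝ) ^ (2 * (n + 1 + 1 - j) - 1)) * prs F j
        = (∑ a : Fin d, (lastEx (sl F a) + ∑ j ∈ range n,
          (1 / (d : ℝ) ^ (2 * (n + 1 - j) - 1)) * prs (sl F a) j))
          + 1 / (d : ℝ) ^ (2 * (n + 1) + 1) * prs F 0 := by
      rw [Finset.sum_range_succ', Finset.sum_add_distrib, lastEx_split,
        ← add_assoc (∑ a : Fin d, lastEx (sl F a))]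
      congr 2
      rw [Finset.sum_comm]
      refine Finset.sum_congr rfl fun j _ => ?_
      rw [prs_succ, Finset.mul_sum, Nat.add_sub_add_right]
    have hsum : (∑ a : Fin d, (lastEx (sl F a) + ∑ j ∈ range n,
          (1 / (d : ℝ) ^ (2 * (n + 1 - j) - 1)) * prs (sl F a) j))
          ≤ ∑ a : Fin d, (((sl F a).card : ℝ) - u a) := by
      refine Finset.sum_le_sum fun a _ => ?_
      have := ih d (sl F a) hd
      rw [hu]
      exact this
    rw [Finset.sum_sub_distrib, ← card_split] at hsum
    obtain ⟨c, hc⟩ : ∃ c : ℝ, c = ∑ a : Fin d, u a := ⟨_, rfl⟩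
    have hc0 : 0 ≤ c := by rw [hc]; exact Finset.sum_nonneg fun a _ => hu0 a
    have hcd : c ≤ d := by
      rw [hc]
      calc ∑ a : Fin d, u a ≤ ∑ _a : Fin d, (1 : ℝ) := Finset.sum_le_sum fun a _ => hu1 a
        _ = d := by simp
    have hp : prs F 0 ≤ (d : ℝ) ^ (2 * (n + 1)) * (c * c - c) := by
      rw [prs_zero]
      have h1 : ∀ a b : Fin d, (if a ≠ b then ((sl F a).card : ℝ) * ((sl F b).card : ℝ) else 0) ≤
          (d : ℝ) ^ (2 * (n + 1)) * (u a * u b - if a = b then u a else 0) := by
        intro a b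
        by_cases hab : a = b
        · subst hab
          simp [huu]
        · rw [if_pos hab, if_neg hab, sub_zero]
          calc ((sl F a).card : ℝ) * ((sl F b).card : ℝ) ≤
              ((d : ℝ) ^ (n + 1) * u a) * ((d : ℝ) ^ (n + 1) * u b) :=
                mul_le_mul (hN a) (hN b) (by positivity)
                  (mul_nonneg (by positivity) (hu0 a))
            _ = (d : ℝ) ^ (2 * (n + 1)) * (u a * u b) := by
                rw [two_mul, pow_add]; ring
      refine (Finset.sum_le_sum fun a _ => Finset.sum_le_sum fun b _ => h1 a b).trans (le_of_eq ?_)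
      simp only [← Finset.mul_sum, Finset.sum_sub_distrib, Finset.sum_ite_eq, Finset.mem_univ,
        if_true]
      rw [← Finset.sum_mul, ← hc]
    have hpp : 1 / (d : ℝ) ^ (2 * (n + 1) + 1) * prs F 0 ≤ (c * c - c) / d := by
      have h1 : 1 / (d : ℝ) ^ (2 * (n + 1) + 1) * prs F 0 ≤
          1 / (d : ℝ) ^ (2 * (n + 1) + 1) * ((d : ℝ) ^ (2 * (n + 1)) * (c * c - c)) :=
        mul_le_mul_of_nonneg_left hp (by positivity)
      have h2 : 1 / (d : ℝ) ^ (2 * (n + 1) + 1) * ((d : ℝ) ^ (2 * (n + 1)) * (c * c - c)) =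
          (c * c - c) / d := by
        rw [pow_succ _ (2 * (n + 1))]
        field_simp
      linarith
    have hlast : (c * c - c) / d ≤ c - (if F.Nonempty then 1 else 0) := by
      by_cases h : F.Nonempty
      · rw [if_pos h]
        have hc1 : 1 ≤ c := by
          obtain ⟨x, hx⟩ := h
          have hx' : Fin.tail x ∈ sl F (x 0) := by
            rw [sl, Finset.mem_filter]
            exact ⟨Finset.mem_univ _, by rw [Fin.cons_self_tail]; exact hx⟩
          have h1 : u (x 0) = 1 := by
            rw [hu]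
            dsimp only
            rw [if_pos ⟨_, hx'⟩]
          rw [hc, ← h1]
          exact Finset.single_le_sum (fun a _ => hu0 a) (Finset.mem_univ (x 0))
        rw [div_le_iff₀ hd0]
        nlinarith
      · rw [if_neg h, sub_zero]
        have hc' : c = 0 := by
          rw [hc]
          refine Finset.sum_eq_zero fun a _ => ?_
          rw [hu]
          dsimp only
          rw [if_neg]
          rintro ⟨t, ht⟩
          rw [sl, Finset.mem_filter] at ht
          exact h ⟨_, ht.2⟩
        rw [hc']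
        simp
    rw [hw]
    linarith

end R14.FX.D2
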