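import Mathlib

set_option autoImplicit false

/-!
Project FX: MP_7bf935_al (maximal fixed-point proportion of level-transitive tree groups).
Vertices at level `n` of the `d`-regular rooted tree are the words `Fin n → Fin d`.
-/

namespace R14.FX

open Finset Filter Topology

/-- The automorphism group of the `d`-regular rooted tree, as a group of compatible families of
permutations of the levels. -/
def AutT (d : ℕ) : Subgroup (∀ n : ℕ, Equiv.Perm (Fin n → Fin d)) where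
  carrier := {g | ∀ (n : ℕ) (x : Fin (n + 1) → Fin d),
    (fun i : Fin n => g (n + 1) x i.castSucc) = g n (fun i => x i.castSucc)}
  mul_mem' := by
    intro a b ha hb n x
    show (fun i : Fin n => a (n + 1) (b (n + 1) x) i.castSucc) = a n (b n (fun i => x i.castSucc))
    rw [ha n, hb n]
  one_mem' := by
    intro n x
    rfl
  inv_mem' := by
    intro a ha n x
    show (fun i : Fin n => (a (n + 1))⁻¹ x i.castSucc) = (a n)⁻¹ (fun i => x i.castSucc)
    rw [Equiv.Perm.eq_inv_iff_eq, ← ha n ((a (n + 1))⁻¹ x)]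
    simp

/-- `G` is transitive on every level. -/
def LevTrans {d : ℕ} (G : Subgroup (∀ n : ℕ, Equiv.Perm (Fin n → Fin d))) : Prop :=
  ∀ (n : ℕ) (x y : Fin n → Fin d), ∃ g ∈ G, g n x = y

/-- The permutation group induced on level `n`. -/
def lev {d : ℕ} (G : Subgroup (∀ n : ℕ, Equiv.Perm (Fin n → Fin d))) (n : ℕ) :
    Subgroup (Equiv.Perm (Fin n → Fin d)) :=
  G.map (Pi.evalMonoidHom (fun n : ℕ => Equiv.Perm (Fin n → Fin d)) n)

/-- The proportion of elements with a fixed point in a permutation group. -/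
noncomputable def fixProp {X : Type} (H : Subgroup (Equiv.Perm X)) : ℝ :=
  (Nat.card {h : H // ∃ x, (h : Equiv.Perm X) x = x} : ℝ) / Nat.card H

/-- `x` and `y` differ for the first time at position `j`. -/
def FD {n d : ℕ} (x y : Fin n → Fin d) (j : ℕ) : Prop :=
  (∀ i : Fin n, (i : ℕ) < j → x i = y i) ∧ ∃ i : Fin n, (i : ℕ) = j ∧ x i ≠ y i

/-- number of pairs of elements of `F` that differ for the first time at `j` -/
noncomputable def prs {n d : ℕ} (F : Finset (Fin n → Fin d)) (j : ℕ) : ℝ := by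
  classical
  exact (((F ×ˢ F).filter (fun p => FD p.1 p.2 j)).card : ℝ)

/-- the weighted number of pairs -/
noncomputable def wsum {n d : ℕ} (F : Finset (Fin n → Fin d)) : ℝ :=
  ∑ j ∈ range n, (1 / (d : ℝ) ^ (2 * (n - j) - 1)) * prs F j

/-- `F` is empty or a ball (all words with a given prefix). -/
def BallOrEmpty {n d : ℕ} (F : Finset (Fin n → Fin d)) : Prop :=
  F = ∅ ∨ ∃ (k : ℕ) (x₀ : Fin n → Fin d), k ≤ n ∧ ∀ x, x ∈ F ↔ ∀ i : Fin n, (i : ℕ) < k → x i = x₀ i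

/-- piece D -/
def StmD : Prop := ∀ (n d : ℕ) (F : Finset (Fin n → Fin d)), 1 ≤ d →
  wsum F ≤ (F.card : ℝ) - (if F.Nonempty then 1 else 0)

/-- piece E -/
def StmE : Prop := ∀ (n d : ℕ) (F : Finset (Fin n → Fin d)), 2 ≤ d → BallOrEmpty F →
  wsum F = (F.card : ℝ) - (if F.Nonempty then 1 else 0)

/-- the constant at level `n` -/
noncomputable def cst (d n : ℕ) : ℝ := ∑ j ∈ range n, 1 / (d : ℝ) ^ (2 * (n - j) - 1)

/-- piece U (Burnside, inequality) -/
def StmU : Prop := ∀ (n d : ℕ) (H : Subgroup (Equiv.Perm (Fin n → Fin d))), 2 ≤ d →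
  (∀ h ∈ H, ∀ x y j, FD x y j → FD (h x) (h y) j) → (∀ x y, ∃ h ∈ H, h x = y) →
  fixProp H ≤ 1 - cst d n

/-- piece V (Burnside, equality) -/
def StmV : Prop := ∀ (n d : ℕ) (H : Subgroup (Equiv.Perm (Fin n → Fin d))), 2 ≤ d →
  (∀ h ∈ H, ∀ x y j, FD x y j → FD (h x) (h y) j) → (∀ x y, ∃ h ∈ H, h x = y) →
  (∀ (x y x' y' : Fin n → Fin d) (j : ℕ), FD x y j → FD x' y' j → ∃ h ∈ H, h x = x' ∧ h y = y') →
  (∀ h ∈ H, BallOrEmpty (by classical exact univ.filter (fun x => h x = x))) →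
  fixProp H = 1 - cst d n

/-- piece F: tree automorphisms preserve the first difference -/
def StmF : Prop := ∀ (d : ℕ) (g : ∀ n : ℕ, Equiv.Perm (Fin n → Fin d)), g ∈ AutT d →
  ∀ (n : ℕ) (x y : Fin n → Fin d) (j : ℕ), FD x y j → FD (g n x) (g n y) j

/-- piece C: the affine group over `F_q[[X]]` -/
def StmC : Prop := ∀ q : ℕ, IsPrimePow q →
  ∃ G : Subgroup (∀ n : ℕ, Equiv.Perm (Fin n → Fin q)), G ≤ AutT q ∧ LevTrans G ∧
    (∀ (n : ℕ) (x y x' y' : Fin n → Fin q) (j : ℕ), FD x y j → FD x' y' j →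
      ∃ g ∈ G, g n x = x' ∧ g n y = y') ∧
    ∀ (n : ℕ), ∀ g ∈ G, BallOrEmpty (by classical exact univ.filter (fun x => g n x = x))

/-- piece M: monotonicity -/
def StmM : Prop := ∀ (d : ℕ) (G : Subgroup (∀ n : ℕ, Equiv.Perm (Fin n → Fin d))), G ≤ AutT d →
  ∀ n, fixProp (lev G (n + 1)) ≤ fixProp (lev G n)

/-- piece S: the geometric series -/
def StmS : Prop := ∀ d : ℕ, 2 ≤ d →
  Tendsto (fun n => 1 - cst d n) atTop (𝓝 (((d : ℝ) ^ 2 - d - 1) / ((d : ℝ) ^ 2 - 1)))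

/-- the result -/
def Main : Prop :=
  (∀ (d : ℕ) (G : Subgroup (∀ n : ℕ, Equiv.Perm (Fin n → Fin d))), 2 ≤ d → G ≤ AutT d → LevTrans G →
    (∀ n, fixProp (lev G n) ≤ 1 - cst d n) ∧
    ∃ a : ℝ, Tendsto (fun n => fixProp (lev G n)) atTop (𝓝 a) ∧
      a ≤ ((d : ℝ) ^ 2 - d - 1) / ((d : ℝ) ^ 2 - 1)) ∧
  ∀ q : ℕ, IsPrimePow q → ∃ G : Subgroup (∀ n : ℕ, Equiv.Perm (Fin n → Fin q)),
    G ≤ AutT q ∧ LevTrans G ∧
    Tendsto (fun n => fixProp (lev G n)) atTop (𝓝 (((q : ℝ) ^ 2 - q - 1) / ((q : ℝ) ^ 2 - 1)))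

end R14.FX
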