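import Pool.Agent.R14.FX.Defs

set_option autoImplicit false

/-!
Project FX, second part: strict inequality when `d` is not a prime power.
-/

namespace R14.FX

open Finset Filter Topology

/-- The excess at the last level: the sum over the words `v` of length `n` of
`max (number of one-letter extensions of v in F, minus one) 0`. -/
noncomputable def lastEx {n d : ℕ} (F : Finset (Fin (n + 1) → Fin d)) : ℝ := by
  classical
  exact ∑ v : Fin n → Fin d,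
    (((univ.filter (fun a : Fin d => (Fin.snoc v a : Fin (n + 1) → Fin d) ∈ F)).card - 1 : ℕ) : ℝ)

/-- piece D2 -/
def StmD2 : Prop := ∀ (n d : ℕ) (F : Finset (Fin (n + 1) → Fin d)), 1 ≤ d →
  lastEx F + ∑ j ∈ range n, (1 / (d : ℝ) ^ (2 * (n + 1 - j) - 1)) * prs F j ≤
    (F.card : ℝ) - (if F.Nonempty then 1 else 0)

/-- piece P2: a sharply 2-transitive finite permutation group has prime power degree -/
def StmP2 : Prop := ∀ (d : ℕ) (Q : Subgroup (Equiv.Perm (Fin d))), 2 ≤ d →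
  (∀ x y x' y' : Fin d, x ≠ y → x' ≠ y' → ∃ g ∈ Q, g x = x' ∧ g y = y') →
  (∀ g ∈ Q, ∀ x y : Fin d, x ≠ y → g x = x → g y = y → g = 1) → IsPrimePow d

/-- piece G2: gap for the proportion of fixed point free elements -/
def StmG2 : Prop := ∀ (d : ℕ) (Q : Subgroup (Equiv.Perm (Fin d))), 2 ≤ d → ¬ IsPrimePow d →
  (∀ x y, ∃ g ∈ Q, g x = y) →
  fixProp Q ≤ 1 - (1 / (d : ℝ) + 1 / ((d : ℝ) * (d.factorial : ℝ)))

/-- the constant at level `n + 1` -/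
noncomputable def cst2 (d n : ℕ) : ℝ :=
  1 / (d : ℝ) + 1 / ((d : ℝ) * (d.factorial : ℝ)) + ∑ j ∈ range n, 1 / (d : ℝ) ^ (2 * (n + 1 - j) - 1)

/-- piece U2 -/
def StmU2 : Prop := ∀ (n d : ℕ) (H : Subgroup (Equiv.Perm (Fin (n + 1) → Fin d))), 2 ≤ d →
  ¬ IsPrimePow d →
  (∀ h ∈ H, ∀ x y j, FD x y j → FD (h x) (h y) j) → (∀ x y, ∃ h ∈ H, h x = y) →
  fixProp H ≤ 1 - cst2 d n

/-- piece S2 -/
def StmS2 : Prop := ∀ d : ℕ, 2 ≤ d → Tendsto (fun n => 1 - cst2 d n) atTop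
  (𝓝 (((d : ℝ) ^ 2 - d - 1) / ((d : ℝ) ^ 2 - 1) - 1 / ((d : ℝ) * (d.factorial : ℝ))))

/-- the second part of the result -/
def Main2 : Prop := ∀ (d : ℕ) (G : Subgroup (∀ n : ℕ, Equiv.Perm (Fin n → Fin d))), 2 ≤ d →
  ¬ IsPrimePow d → G ≤ AutT d → LevTrans G →
  ∀ a : ℝ, Tendsto (fun n => fixProp (lev G n)) atTop (𝓝 a) →
    a ≤ ((d : ℝ) ^ 2 - d - 1) / ((d : ℝ) ^ 2 - 1) - 1 / ((d : ℝ) * (d.factorial : ℝ))

end R14.FX
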