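import Pool.Agent.R14.FX.Defs

set_option autoImplicit false

/-! Project FX, piece E: equality for balls (helper700). -/

namespace R14.FX.E

open R14.FX Finset Filter Topology

theorem prodA (d k : ℕ) (r : ℕ) :
    ∏ i ∈ range (k + r), (if i < k then 1 else d) = d ^ r := by
  induction r with
  | zero =>
    rw [add_zero, pow_zero]
    exact prod_eq_one fun i hi => by rw [mem_range] at hi; rw [if_pos hi]
  | succ r ih =>
    rw [← add_assoc, prod_range_succ, ih, if_neg (by omega), pow_succ]

theorem prodB (d j : ℕ) (r : ℕ) :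
    ∏ i ∈ range (j + 1 + r), (if i < j then 1 else if i = j then (d - 1) else d) =
      (d - 1) * d ^ r := by
  induction r with
  | zero =>
    rw [add_zero, pow_zero, mul_one, prod_range_succ, if_neg (by omega), if_pos rfl]
    rw [prod_eq_one fun i hi => by rw [mem_range] at hi; rw [if_pos hi], one_mul]
  | succ r ih =>
    rw [← add_assoc, prod_range_succ, ih, if_neg (by omega), if_neg (by omega), pow_succ, mul_assoc]

theorem card_ball (n d k : ℕ) (x₀ : Fin n → Fin d) (F : Finset (Fin n → Fin d)) (hk : k ≤ n)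
    (hF : ∀ x, x ∈ F ↔ ∀ i : Fin n, (i : ℕ) < k → x i = x₀ i) : F.card = d ^ (n - k) := by
  classical
  have e : F = Fintype.piFinset (fun i : Fin n => if (i : ℕ) < k then {x₀ i} else univ) := by
    ext x
    rw [hF, Fintype.mem_piFinset]
    refine forall_congr' fun i => ?_
    by_cases hi : (i : ℕ) < k
    · simp [hi]
    · simp [hi]
  rw [e, Fintype.card_piFinset]
  have e2 : ∀ i : Fin n, (if (i : ℕ) < k then ({x₀ i} : Finset (Fin d)) else univ).card =
      (fun m : ℕ => if m < k then 1 else d) i := by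
    intro i
    by_cases hi : (i : ℕ) < k
    · simp [hi]
    · simp [hi]
  rw [prod_congr rfl fun i _ => e2 i, Fin.prod_univ_eq_prod_range
    (fun m : ℕ => if m < k then 1 else d) n]
  obtain ⟨r, rfl⟩ := Nat.exists_eq_add_of_le hk
  rw [prodA, Nat.add_sub_cancel_left]

theorem card_FD (n d k j : ℕ) (x₀ : Fin n → Fin d) (F : Finset (Fin n → Fin d)) (hkj : k ≤ j)
    (hj : j < n) (hF : ∀ x, x ∈ F ↔ ∀ i : Fin n, (i : ℕ) < k → x i = x₀ i)
    (x : Fin n → Fin d) (hx : x ∈ F) [DecidablePred fun y => FD x y j] :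
    (F.filter (fun y => FD x y j)).card = (d - 1) * d ^ (n - j - 1) := by
  classical
  have e : F.filter (fun y => FD x y j) = Fintype.piFinset (fun i : Fin n =>
      if (i : ℕ) < j then {x i} else if (i : ℕ) = j then univ.erase (x i) else univ) := by
    ext y
    rw [mem_filter, Fintype.mem_piFinset]
    constructor
    · rintro ⟨_, h1, i', hi', h2⟩ i
      by_cases hi : (i : ℕ) < j
      · rw [if_pos hi, mem_singleton]; exact (h1 i hi).symm
      · rw [if_neg hi]
        by_cases hi2 : (i : ℕ) = j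
        · rw [if_pos hi2]
          have : i = i' := Fin.ext (by omega)
          subst this
          rw [mem_erase]
          exact ⟨fun h => h2 h.symm, mem_univ _⟩
        · rw [if_neg hi2]; exact mem_univ _
    · intro h
      have h1 : ∀ i : Fin n, (i : ℕ) < j → x i = y i := by
        intro i hi
        have := h i
        rw [if_pos hi, mem_singleton] at this
        exact this.symm
      refine ⟨?_, h1, ⟨j, hj⟩, rfl, ?_⟩
      · rw [hF] at hx ⊢
        intro i hi
        rw [← h1 i (by omega)]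
        exact hx i hi
      · have := h ⟨j, hj⟩
        rw [if_neg (by simp), if_pos rfl, mem_erase] at this
        exact fun h => this.1 h.symm
  rw [e, Fintype.card_piFinset]
  have e2 : ∀ i : Fin n, (if (i : ℕ) < j then ({x i} : Finset (Fin d)) else
      if (i : ℕ) = j then univ.erase (x i) else univ).card =
      (fun m : ℕ => if m < j then 1 else if m = j then (d - 1) else d) i := by
    intro i
    by_cases hi : (i : ℕ) < j
    · simp [hi]
    · by_cases hi2 : (i : ℕ) = j
      · simp [hi2]
      · simp [hi, hi2]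
  rw [prod_congr rfl fun i _ => e2 i, Fin.prod_univ_eq_prod_range
    (fun m : ℕ => if m < j then 1 else if m = j then (d - 1) else d) n]
  obtain ⟨r, rfl⟩ := Nat.exists_eq_add_of_le (show j + 1 ≤ n from hj)
  rw [prodB]
  congr 2
  omega

theorem prs_ball (n d k j : ℕ) (x₀ : Fin n → Fin d) (F : Finset (Fin n → Fin d)) (hk : k ≤ n)
    (hkj : k ≤ j) (hj : j < n) (hd : 1 ≤ d)
    (hF : ∀ x, x ∈ F ↔ ∀ i : Fin n, (i : ℕ) < k → x i = x₀ i) :
    prs F j = (d : ℝ) ^ (n - k) * (((d : ℝ) - 1) * (d : ℝ) ^ (n - j - 1)) := by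
  classical
  have h1 : ((F ×ˢ F).filter (fun p => FD p.1 p.2 j)).card =
      d ^ (n - k) * ((d - 1) * d ^ (n - j - 1)) := by
    rw [card_filter, sum_product]
    have h2 : ∀ x ∈ F, ∑ y ∈ F, (if FD x y j then 1 else 0) = (d - 1) * d ^ (n - j - 1) := by
      intro x hx
      rw [← card_filter]
      exact card_FD n d k j x₀ F hkj hj hF x hx
    rw [sum_congr rfl h2, sum_const, card_ball n d k x₀ F hk hF, smul_eq_mul]
  have h3 : prs F j = ((((F ×ˢ F).filter (fun p => FD p.1 p.2 j)).card : ℕ) : ℝ) := by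
    unfold prs
    congr
  rw [h3, h1]
  push_cast [Nat.cast_sub hd]
  ring

theorem prs_low (n d k j : ℕ) (x₀ : Fin n → Fin d) (F : Finset (Fin n → Fin d))
    (hkj : j < k)
    (hF : ∀ x, x ∈ F ↔ ∀ i : Fin n, (i : ℕ) < k → x i = x₀ i) :
    prs F j = 0 := by
  classical
  unfold prs
  rw [Nat.cast_eq_zero, card_eq_zero, filter_eq_empty_iff]
  rintro ⟨x, y⟩ hp ⟨_, i, hi, h2⟩
  rw [mem_product] at hp
  exact h2 (((hF x).1 hp.1 i (by omega)).trans ((hF y).1 hp.2 i (by omega)).symm)

theorem main : StmE := by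
  intro n d F hd hF
  classical
  rcases hF with rfl | ⟨k, x₀, hk, hF⟩
  · have h1 : ∀ j, prs (∅ : Finset (Fin n → Fin d)) j = 0 := by
      intro j
      unfold prs
      simp
    simp [wsum, h1]
  · have hne : F.Nonempty := ⟨x₀, (hF x₀).2 fun _ _ => rfl⟩
    rw [if_pos hne, card_ball n d k x₀ F hk hF]
    unfold wsum
    obtain ⟨r, rfl⟩ := Nat.exists_eq_add_of_le hk
    rw [sum_range_add, sum_eq_zero fun j hj => by
      rw [mem_range] at hj; rw [prs_low (k + r) d k j x₀ F hj hF, mul_zero], zero_add]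
    have hd0 : (d : ℝ) ≠ 0 := by
      have : 0 < d := by omega
      positivity
    have h2 : ∀ s ∈ range r, (1 / (d : ℝ) ^ (2 * (k + r - (k + s)) - 1)) * prs F (k + s) =
        (d : ℝ) ^ s * ((d : ℝ) - 1) := by
      intro s hs
      rw [mem_range] at hs
      rw [prs_ball (k + r) d k (k + s) x₀ F hk (by omega) (by omega) (by omega) hF]
      obtain ⟨c, rfl⟩ := Nat.exists_eq_add_of_le (show s + 1 ≤ r from hs)
      have e1 : 2 * (k + (s + 1 + c) - (k + s)) - 1 = 2 * c + 1 := by omega
      have e2 : k + (s + 1 + c) - k = s + 1 + c := by omega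
      have e3 : k + (s + 1 + c) - (k + s) - 1 = c := by omega
      rw [e1, e2, e3]
      field_simp
      ring
    rw [sum_congr rfl h2, ← sum_mul, geom_sum_mul]
    push_cast
    rw [Nat.add_sub_cancel_left]

end R14.FX.E
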