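import Pool.Agent.R14.FX.Defs

set_option autoImplicit false

/-!
Project FX, piece F: tree automorphisms preserve the first difference.
-/

namespace R14.FX.F

open R14.FX Finset Filter Topology

/-- the action on a prefix -/
theorem prefix_eq {d : ℕ} (g : ∀ n : ℕ, Equiv.Perm (Fin n → Fin d)) (hg : g ∈ AutT d) (m n : ℕ)
    (h : m ≤ n) (x : Fin n → Fin d) (i : Fin m) :
    g n x (Fin.castLE h i) = g m (fun i => x (Fin.castLE h i)) i := by
  induction n, h using Nat.le_induction with
  | base => rfl
  | succ n h ih =>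
    have h1 := congrFun (hg n x) (Fin.castLE h i)
    have h2 := ih (fun i => x i.castSucc)
    exact h1.trans h2

theorem main : StmF := by
  intro d g hg n x y j hxy
  obtain ⟨h1, i, hi, h2⟩ := hxy
  have hjn : j < n := hi ▸ i.2
  have h3 : ∀ k : Fin n, (k : ℕ) < j → g n x k = g n y k := by
    intro k hk
    have e1 := prefix_eq g hg j n hjn.le x ⟨k, hk⟩
    have e2 := prefix_eq g hg j n hjn.le y ⟨k, hk⟩
    have e3 : (fun i : Fin j => x (Fin.castLE hjn.le i)) = fun i => y (Fin.castLE hjn.le i) := by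
      funext l
      exact h1 _ l.2
    rw [e3] at e1
    exact e1.trans e2.symm
  refine ⟨h3, i, hi, fun h4 => h2 ?_⟩
  have h5 : g (j + 1) (fun i => x (Fin.castLE hjn i)) = g (j + 1) (fun i => y (Fin.castLE hjn i)) := by
    funext l
    rw [← prefix_eq g hg (j + 1) n hjn x l, ← prefix_eq g hg (j + 1) n hjn y l]
    rcases Nat.lt_succ_iff_lt_or_eq.1 l.2 with h | h
    · exact h3 _ h
    · have : Fin.castLE hjn l = i := Fin.ext (by rw [Fin.val_castLE, h, hi])
      rw [this]
      exact h4
  have h6 := congrFun ((g (j + 1)).injective h5) ⟨j, Nat.lt_succ_self j⟩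
  have h7 : Fin.castLE hjn ⟨j, Nat.lt_succ_self j⟩ = i := Fin.ext (by simp [hi])
  simpa only [h7] using h6

end R14.FX.F
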