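import Pool.Agent.R14.FX.Defs2

/-!
Project FX (helper14), piece G2 (helper765): gap for the proportion of fixed point free elements.
-/

set_option autoImplicit false

namespace R14.FX.G2

open R14.FX Finset MulAction

open Classical in
/-- the number of fixed points -/
noncomputable def c {d : ℕ} {Q : Subgroup (Equiv.Perm (Fin d))} (g : Q) : ℕ :=
  (univ.filter (fun x : Fin d => (g : Equiv.Perm (Fin d)) x = x)).card

lemma card_fix {d : ℕ} {Q : Subgroup (Equiv.Perm (Fin d))} (g : Q) [Fintype (fixedBy (Fin d) g)] :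
    Fintype.card (fixedBy (Fin d) g) = c g := by
  classical
  unfold c
  refine Fintype.card_of_finset' _ (fun x => ?_)
  simp only [mem_filter, mem_univ, true_and]
  rfl

lemma card_fix2 {d : ℕ} {Q : Subgroup (Equiv.Perm (Fin d))} (g : Q)
    [Fintype (fixedBy (Fin d × Fin d) g)] :
    Fintype.card (fixedBy (Fin d × Fin d) g) = c g * c g := by
  classical
  unfold c
  rw [← card_product]
  refine Fintype.card_of_finset' _ (fun x => ?_)
  simp only [mem_product, mem_filter, mem_univ, true_and]
  constructor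
  · rintro ⟨h1, h2⟩
    exact Prod.ext h1 h2
  · intro h
    exact ⟨congrArg Prod.fst h, congrArg Prod.snd h⟩

lemma c_le {d : ℕ} {Q : Subgroup (Equiv.Perm (Fin d))} (g : Q) : c g ≤ d := by
  unfold c
  exact (card_filter_le _ _).trans (by simp)

lemma c_zero {d : ℕ} {Q : Subgroup (Equiv.Perm (Fin d))} (g : Q) :
    c g = 0 ↔ ¬ ∃ x, (g : Equiv.Perm (Fin d)) x = x := by
  unfold c
  rw [card_eq_zero, filter_eq_empty_iff]
  simp

lemma sum_c {d : ℕ} (Q : Subgroup (Equiv.Perm (Fin d))) [Fintype Q] (hd : 2 ≤ d)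
    (hT : ∀ x y, ∃ g ∈ Q, g x = y) : ∑ g : Q, c g = Fintype.card Q := by
  classical
  have h1 := MulAction.sum_card_fixedBy_eq_card_orbits_mul_card_group Q (Fin d)
  simp only [card_fix] at h1
  rw [h1]
  have h2 : Fintype.card (Quotient (orbitRel Q (Fin d))) = 1 := by
    rw [Fintype.card_eq_one_iff]
    refine ⟨Quotient.mk _ ⟨0, by omega⟩, fun q => ?_⟩
    induction q using Quotient.inductionOn with
    | h y =>
      apply Quotient.sound
      obtain ⟨g, hg, hgy⟩ := hT ⟨0, by omega⟩ y
      exact ⟨⟨g, hg⟩, hgy⟩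
  rw [h2, one_mul]

lemma sum_c2 {d : ℕ} (Q : Subgroup (Equiv.Perm (Fin d))) [Fintype Q] (hd : 2 ≤ d) :
    2 * Fintype.card Q ≤ ∑ g : Q, c g * c g ∧
    ((∃ x y x' y' : Fin d, x ≠ y ∧ x' ≠ y' ∧ ∀ g ∈ Q, ¬ (g x = x' ∧ g y = y')) →
      3 * Fintype.card Q ≤ ∑ g : Q, c g * c g) := by
  classical
  have h1 := MulAction.sum_card_fixedBy_eq_card_orbits_mul_card_group Q (Fin d × Fin d)
  simp only [card_fix2] at h1
  rw [h1]
  have hne : ∀ (x y z : Fin d), x ≠ y →
      (Quotient.mk (orbitRel Q (Fin d × Fin d)) (z, z)) ≠ Quotient.mk _ (x, y) := by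
    intro x y z hxy h
    have h2 : (orbitRel Q (Fin d × Fin d)).r (z, z) (x, y) := Quotient.exact h
    obtain ⟨g, hg⟩ := h2
    have e1 : (g : Equiv.Perm (Fin d)) x = z := congrArg Prod.fst hg
    have e2 : (g : Equiv.Perm (Fin d)) y = z := congrArg Prod.snd hg
    exact hxy ((g : Equiv.Perm (Fin d)).injective (e1.trans e2.symm))
  constructor
  · apply Nat.mul_le_mul_right
    have h3 : 1 < Fintype.card (Quotient (orbitRel Q (Fin d × Fin d))) := by
      rw [Fintype.one_lt_card_iff]
      refine ⟨_, _, hne ⟨0, by omega⟩ ⟨1, by omega⟩ ⟨0, by omega⟩ ?_⟩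
      intro h
      have := congrArg Fin.val h
      simp at this
    omega
  · rintro ⟨x, y, x', y', hxy, hxy', hno⟩
    apply Nat.mul_le_mul_right
    have h3 : 2 < Fintype.card (Quotient (orbitRel Q (Fin d × Fin d))) := by
      rw [Fintype.two_lt_card_iff]
      refine ⟨_, _, _, hne x y x hxy, hne x' y' x hxy', ?_⟩
      intro h
      have h2 : (orbitRel Q (Fin d × Fin d)).r (x, y) (x', y') := Quotient.exact h
      obtain ⟨g, hg⟩ := h2
      have e1 : (g : Equiv.Perm (Fin d)) x' = x := congrArg Prod.fst hg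
      have e2 : (g : Equiv.Perm (Fin d)) y' = y := congrArg Prod.snd hg
      refine hno ((g : Equiv.Perm (Fin d))⁻¹) (Q.inv_mem g.2) ⟨?_, ?_⟩
      · rw [← e1]; simp
      · rw [← e2]; simp
    omega

theorem main : StmP2 → StmG2 := by
  classical
  intro hP2 d Q hd hpp hT
  have : Fintype Q := Fintype.ofFinite Q
  have hdR : (0 : ℝ) < d := by exact_mod_cast (by omega : 0 < d)
  set N : ℕ := Fintype.card Q with hN
  have hNpos : 0 < N := Fintype.card_pos
  have hNR : (0 : ℝ) < N := by exact_mod_cast hNpos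
  have hfac : N ≤ d.factorial := by
    have h1 : Fintype.card Q ≤ Fintype.card (Equiv.Perm (Fin d)) :=
      Fintype.card_le_of_injective _ Subtype.val_injective
    rwa [Fintype.card_perm, Fintype.card_fin] at h1
  have hfacR : (N : ℝ) ≤ (d.factorial : ℝ) := by exact_mod_cast hfac
  have hfpos : (0 : ℝ) < (d.factorial : ℝ) := by exact_mod_cast d.factorial_pos
  set Z : ℕ := (univ.filter (fun g : Q => c g = 0)).card with hZ
  -- the proportion
  have hfix : fixProp Q = 1 - (Z : ℝ) / N := by
    unfold fixProp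
    rw [Nat.card_eq_fintype_card, Nat.card_eq_fintype_card, Fintype.card_subtype]
    have h1 : (univ.filter (fun g : Q => c g = 0)).card +
        (univ.filter (fun g : Q => ∃ x, (g : Equiv.Perm (Fin d)) x = x)).card = N := by
      have h2 : (univ.filter (fun g : Q => ∃ x, (g : Equiv.Perm (Fin d)) x = x)) =
          univ.filter (fun g : Q => ¬ c g = 0) := by
        refine filter_congr fun g _ => ?_
        rw [c_zero, not_not]
      rw [h2, Finset.card_filter_add_card_filter_not]
      exact card_univ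
    have h3 : ((univ.filter (fun g : Q => ∃ x, (g : Equiv.Perm (Fin d)) x = x)).card : ℝ) =
        N - Z := by
      rw [← h1]
      push_cast
      ring
    rw [h3, ← hN]
    field_simp
  -- the main count
  have hs1 : ∑ g : Q, (c g : ℝ) = N := by exact_mod_cast sum_c Q hd hT
  have hexp : ∑ g : Q, ((c g : ℝ) - 1) * ((c g : ℝ) - d) = ∑ g : Q, ((c g * c g : ℕ) : ℝ) - N := by
    have h1 : ∀ g : Q, ((c g : ℝ) - 1) * ((c g : ℝ) - d) =
        ((c g * c g : ℕ) : ℝ) - (d + 1) * (c g : ℝ) + d := by
      intro g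
      push_cast
      ring
    rw [sum_congr rfl (fun g _ => h1 g), sum_add_distrib, sum_sub_distrib, ← mul_sum, hs1,
      sum_const, card_univ, nsmul_eq_mul, ← hN]
    ring
  have hpt : ∀ g : Q, ((c g : ℝ) - 1) * ((c g : ℝ) - d) ≤ if c g = 0 then (d : ℝ) else 0 := by
    intro g
    split_ifs with h0
    · rw [h0]
      norm_num
    · have h1 : (1 : ℝ) ≤ c g := by exact_mod_cast Nat.one_le_iff_ne_zero.2 h0
      have h2 : (c g : ℝ) ≤ d := by exact_mod_cast c_le g
      nlinarith
  have hsumZ : ∑ g : Q, (if c g = 0 then (d : ℝ) else 0) = d * Z := by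
    rw [← sum_filter, sum_const, nsmul_eq_mul, mul_comm]
  have hgoal : (N : ℝ) + N / d.factorial ≤ d * Z := by
    by_cases hA : ∃ g : Q, g ≠ 1 ∧ ∃ x y : Fin d, x ≠ y ∧ (g : Equiv.Perm (Fin d)) x = x ∧
        (g : Equiv.Perm (Fin d)) y = y
    · obtain ⟨g0, hg0, x, y, hxy, hx, hy⟩ := hA
      have h2c : 2 ≤ c g0 := by
        unfold c
        have h1 : ({x, y} : Finset (Fin d)) ⊆
            univ.filter (fun x : Fin d => (g0 : Equiv.Perm (Fin d)) x = x) := by
          intro z hz
          simp only [mem_insert, mem_singleton] at hz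
          simp only [mem_filter, mem_univ, true_and]
          rcases hz with rfl | rfl
          · exact hx
          · exact hy
        have h2 := card_le_card h1
        rwa [card_pair hxy] at h2
      have hltd : c g0 < d := by
        refine lt_of_le_of_ne (c_le g0) fun h => hg0 ?_
        have h1 : univ.filter (fun x : Fin d => (g0 : Equiv.Perm (Fin d)) x = x) = univ := by
          apply eq_univ_of_card
          rw [Fintype.card_fin]
          exact h
        ext z
        have h2 : z ∈ univ.filter (fun x : Fin d => (g0 : Equiv.Perm (Fin d)) x = x) := by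
          rw [h1]
          exact mem_univ z
        simp only [mem_filter, mem_univ, true_and] at h2
        simp [h2]
      have hpt' : ∀ g : Q, ((c g : ℝ) - 1) * ((c g : ℝ) - d) ≤
          (if c g = 0 then (d : ℝ) else 0) - (if g = g0 then 1 else 0) := by
        intro g
        by_cases hg : g = g0
        · rw [if_pos hg, hg, if_neg (by omega)]
          have h3 : (2 : ℝ) ≤ c g0 := by exact_mod_cast h2c
          have h4 : (c g0 : ℝ) + 1 ≤ d := by exact_mod_cast hltd
          nlinarith
        · rw [if_neg hg, sub_zero]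
          exact hpt g
      have h5 := sum_le_sum (fun g (_ : g ∈ (univ : Finset Q)) => hpt' g)
      rw [hexp, sum_sub_distrib, hsumZ, sum_ite_eq' univ g0, if_pos (mem_univ _)] at h5
      have h6 : (2 : ℝ) * N ≤ ∑ g : Q, ((c g * c g : ℕ) : ℝ) := by
        exact_mod_cast (sum_c2 Q hd).1
      have h7 : (N : ℝ) / d.factorial ≤ 1 := (div_le_one hfpos).2 hfacR
      linarith
    · have hB : ∃ x y x' y' : Fin d, x ≠ y ∧ x' ≠ y' ∧ ∀ g ∈ Q, ¬ (g x = x' ∧ g y = y') := by
        by_contra hcon
        push Not at hcon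
        refine hpp (hP2 d Q hd ?_ ?_)
        · intro x y x' y' h1 h2
          obtain ⟨g, hg, h3, h4⟩ := hcon x y x' y' h1 h2
          exact ⟨g, hg, h3, h4⟩
        · intro g hg x y hxy hx hy
          by_contra hg1
          refine hA ⟨⟨g, hg⟩, fun h => hg1 ?_, x, y, hxy, hx, hy⟩
          exact congrArg Subtype.val h
      have h5 := sum_le_sum (fun g (_ : g ∈ (univ : Finset Q)) => hpt g)
      rw [hexp, hsumZ] at h5
      have h6 : (3 : ℝ) * N ≤ ∑ g : Q, ((c g * c g : ℕ) : ℝ) := by
        exact_mod_cast (sum_c2 Q hd).2 hB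
      have h7 : (N : ℝ) / d.factorial ≤ N := by
        apply div_le_self hNR.le
        exact_mod_cast d.factorial_pos
      linarith
  rw [hfix]
  have h8 : 1 / (d : ℝ) + 1 / ((d : ℝ) * (d.factorial : ℝ)) ≤ (Z : ℝ) / N := by
    rw [le_div_iff₀ hNR]
    have h9 : (1 / (d : ℝ) + 1 / ((d : ℝ) * (d.factorial : ℝ))) * N =
        ((N : ℝ) + N / d.factorial) / d := by
      field_simp
    rw [h9, div_le_iff₀ hdR]
    linarith
  linarith

end R14.FX.G2
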