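import Pool.Agent.R14.FX.Defs

set_option autoImplicit false

/-! Piece M of project FX: monotonicity of the proportions of elements with a fixed point. -/

namespace R14.FX.M

open R14.FX Finset Filter Topology

/-- splitting of a group along a surjective homomorphism -/
noncomputable def spl {A B : Type} [Group A] [Group B] (φ : A →* B)
    (hφ : Function.Surjective φ) : A ≃ B × φ.ker where
  toFun a := (φ a, ⟨(Function.surjInv hφ (φ a))⁻¹ * a, by
    rw [MonoidHom.mem_ker, map_mul, map_inv, Function.surjInv_eq hφ, inv_mul_cancel]⟩)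
  invFun p := Function.surjInv hφ p.1 * (p.2 : A)
  left_inv a := by
    change Function.surjInv hφ (φ a) * ((Function.surjInv hφ (φ a))⁻¹ * a) = a
    rw [mul_inv_cancel_left]
  right_inv p := by
    obtain ⟨b, k, hk⟩ := p
    have hk' : φ k = 1 := hk
    have h1 : φ (Function.surjInv hφ b * k) = b := by
      rw [map_mul, Function.surjInv_eq hφ, hk', mul_one]
    refine Prod.ext h1 (Subtype.ext ?_)
    change (Function.surjInv hφ (φ (Function.surjInv hφ b * k)))⁻¹ *
      (Function.surjInv hφ b * k) = k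
    rw [h1, inv_mul_cancel_left]

theorem count {A B : Type} [Group A] [Group B] [Finite A] [Finite B] (φ : A →* B)
    (hφ : Function.Surjective φ) (P : A → Prop) (Q : B → Prop) (h : ∀ a, P a → Q (φ a)) :
    (Nat.card {a // P a} : ℝ) / Nat.card A ≤ (Nat.card {b // Q b} : ℝ) / Nat.card B := by
  have e1 : Nat.card A = Nat.card B * Nat.card φ.ker := by
    rw [Nat.card_congr (spl φ hφ), Nat.card_prod]
  have e2 : Nat.card {a // Q (φ a)} = Nat.card {b // Q b} * Nat.card φ.ker := by
    rw [← Nat.card_prod]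
    refine Nat.card_congr ?_
    refine Equiv.trans ((spl φ hφ).subtypeEquiv (p := fun a => Q (φ a))
      (q := fun p => Q p.1) fun a => Iff.rfl) ?_
    exact Equiv.prodSubtypeFstEquivSubtypeProd
  have e3 : Nat.card {a // P a} ≤ Nat.card {a // Q (φ a)} :=
    Nat.card_le_card_of_injective (fun a : {a // P a} => (⟨a.1, h a.1 a.2⟩ : {a // Q (φ a)}))
      (fun a b hab => Subtype.ext (congrArg (fun z : {a // Q (φ a)} => z.1) hab))
  have hB : (0 : ℝ) < Nat.card B := by exact_mod_cast Nat.card_pos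
  have hk : (0 : ℝ) < Nat.card φ.ker := by exact_mod_cast Nat.card_pos
  rw [e1, Nat.cast_mul, ← mul_div_mul_right (Nat.card {b // Q b} : ℝ) (Nat.card B : ℝ) hk.ne']
  refine div_le_div_of_nonneg_right ?_ (mul_pos hB hk).le
  rw [e2] at e3
  exact_mod_cast e3

theorem ker_le {d : ℕ} (g : ∀ n : ℕ, Equiv.Perm (Fin n → Fin d)) (hg : g ∈ AutT d) (n : ℕ)
    (h : g (n + 1) = 1) : g n = 1 := by
  refine Equiv.ext fun x => ?_
  rcases Nat.eq_zero_or_pos d with hd | hd
  · subst hd
    exact funext fun i => (x i).elim0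
  · have h1 := hg n (Fin.snoc x ⟨0, hd⟩)
    rw [h] at h1
    have h2 : (fun i : Fin n => (Fin.snoc x (⟨0, hd⟩ : Fin d) : Fin (n + 1) → Fin d) i.castSucc) =
        x := by
      funext i
      exact Fin.snoc_castSucc (α := fun _ => Fin d) _ _ _
    rw [h2] at h1
    exact h1.symm.trans h2

theorem main : StmM := by
  intro d G hG n
  let f : G →* lev G (n + 1) :=
    (Pi.evalMonoidHom (fun n : ℕ => Equiv.Perm (Fin n → Fin d)) (n + 1)).subgroupMap G
  have hf : Function.Surjective f := MonoidHom.subgroupMap_surjective _ _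
  let g : G →* lev G n :=
    (Pi.evalMonoidHom (fun n : ℕ => Equiv.Perm (Fin n → Fin d)) n).subgroupMap G
  have hg : Function.Surjective g := MonoidHom.subgroupMap_surjective _ _
  have hker : f.ker ≤ g.ker := by
    intro a ha
    have h1 : (a : ∀ n : ℕ, Equiv.Perm (Fin n → Fin d)) (n + 1) = 1 := congrArg Subtype.val ha
    exact Subtype.ext (ker_le _ (hG a.2) n h1)
  let φ : lev G (n + 1) →* lev G n := MonoidHom.liftOfSurjective f hf ⟨g, hker⟩
  have hφ : ∀ a, φ (f a) = g a := fun a =>
    MonoidHom.liftOfRightInverse_comp_apply f _ (Function.rightInverse_surjInv hf) ⟨g, hker⟩ a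
  have hs : Function.Surjective φ := by
    intro b
    obtain ⟨a, ha⟩ := hg b
    exact ⟨f a, by rw [hφ, ha]⟩
  refine count φ hs _ _ ?_
  rintro a ⟨x, hx⟩
  obtain ⟨c, rfl⟩ := hf a
  rw [hφ]
  refine ⟨fun i => x i.castSucc, ?_⟩
  have h1 := hG c.2 n x
  have h2 : (c : ∀ n : ℕ, Equiv.Perm (Fin n → Fin d)) (n + 1) x = x := hx
  rw [h2] at h1
  exact h1.symm

end R14.FX.M
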