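import Pool.Agent.R14.FX.Defs

/-! Project FX: assembly. -/

set_option autoImplicit false

namespace R14.FX.Main

open R14.FX Finset Filter Topology

theorem mem_lev {d : ℕ} {G : Subgroup (∀ n : ℕ, Equiv.Perm (Fin n → Fin d))} {n : ℕ}
    {h : Equiv.Perm (Fin n → Fin d)} (hh : h ∈ lev G n) : ∃ g ∈ G, g n = h := by
  obtain ⟨g, hg, rfl⟩ := Subgroup.mem_map.1 hh
  exact ⟨g, hg, rfl⟩

theorem lev_mem {d : ℕ} {G : Subgroup (∀ n : ℕ, Equiv.Perm (Fin n → Fin d))} {n : ℕ}
    {g : ∀ n : ℕ, Equiv.Perm (Fin n → Fin d)} (hg : g ∈ G) : g n ∈ lev G n :=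
  Subgroup.mem_map.2 ⟨g, hg, rfl⟩

theorem fixProp_nonneg {X : Type} (H : Subgroup (Equiv.Perm X)) : 0 ≤ fixProp H := by
  unfold fixProp
  positivity

theorem main (hU : StmU) (hV : StmV) (hF : StmF) (hC : StmC) (hM : StmM) (hS : StmS) :
    R14.FX.Main := by
  refine ⟨?_, ?_⟩
  · intro d G hd hG hT
    have h1 : ∀ n, fixProp (lev G n) ≤ 1 - cst d n := by
      intro n
      refine hU n d (lev G n) hd ?_ ?_
      · intro h hh x y j hxy
        obtain ⟨g, hg, rfl⟩ := mem_lev hh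
        exact hF d g (hG hg) n x y j hxy
      · intro x y
        obtain ⟨g, hg, hgx⟩ := hT n x y
        exact ⟨g n, lev_mem hg, hgx⟩
    refine ⟨h1, ?_⟩
    have hanti : Antitone (fun n => fixProp (lev G n)) := antitone_nat_of_succ_le (hM d G hG)
    have hbdd : BddBelow (Set.range (fun n => fixProp (lev G n))) := by
      refine ⟨0, ?_⟩
      rintro _ ⟨n, rfl⟩
      exact fixProp_nonneg _
    have hlim := tendsto_atTop_ciInf hanti hbdd
    exact ⟨_, hlim, le_of_tendsto_of_tendsto' hlim (hS d hd) h1⟩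
  · intro q hq
    obtain ⟨G, hG, hT, hpairs, hball⟩ := hC q hq
    refine ⟨G, hG, hT, ?_⟩
    have h1 : ∀ n, 1 - cst q n = fixProp (lev G n) := by
      intro n
      symm
      refine hV n q (lev G n) hq.two_le ?_ ?_ ?_ ?_
      · intro h hh x y j hxy
        obtain ⟨g, hg, rfl⟩ := mem_lev hh
        exact hF q g (hG hg) n x y j hxy
      · intro x y
        obtain ⟨g, hg, hgx⟩ := hT n x y
        exact ⟨g n, lev_mem hg, hgx⟩
      · intro x y x' y' j h2 h3
        obtain ⟨g, hg, hgx, hgy⟩ := hpairs n x y x' y' j h2 h3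
        exact ⟨g n, lev_mem hg, hgx, hgy⟩
      · intro h hh
        obtain ⟨g, hg, rfl⟩ := mem_lev hh
        exact hball n g hg
    exact (hS q hq.two_le).congr h1

end R14.FX.Main
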