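import Pool.Agent.R14.FX.Defs2

/-! Project FX, second part: assembly (helper886). -/

set_option autoImplicit false

namespace R14.FX.Main2

open R14.FX Finset Filter Topology

theorem main (hU : StmU2) (hF : StmF) (hS : StmS2) : R14.FX.Main2 := by
  intro d G hd hq hG hT a ha
  have h1 : ∀ n, fixProp (lev G (n + 1)) ≤ 1 - cst2 d n := by
    intro n
    refine hU n d (lev G (n + 1)) hd hq ?_ ?_
    · intro h hh x y j hxy
      obtain ⟨g, hg, rfl⟩ := Subgroup.mem_map.1 hh
      exact hF d g (hG hg) (n + 1) x y j hxy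
    · intro x y
      obtain ⟨g, hg, hgx⟩ := hT (n + 1) x y
      exact ⟨g (n + 1), Subgroup.mem_map.2 ⟨g, hg, rfl⟩, hgx⟩
  have h2 : Tendsto (fun n => fixProp (lev G (n + 1))) atTop (𝓝 a) :=
    ha.comp (tendsto_add_atTop_nat 1)
  exact le_of_tendsto_of_tendsto' h2 (hS d hd) h1

end R14.FX.Main2
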