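import Pool.Agent.R14.FX.Defs2

set_option autoImplicit false

/-!
Piece P2: a sharply 2-transitive finite permutation group has prime power degree.
-/

namespace R14.FX.P2

open R14.FX Finset

variable {d : ℕ} {Q : Subgroup (Equiv.Perm (Fin d))}

lemma eqOf (hs : ∀ g ∈ Q, ∀ x y : Fin d, x ≠ y → g x = x → g y = y → g = 1)
    (g h : Q) (x y : Fin d) (hxy : x ≠ y) (h1 : (g : Equiv.Perm (Fin d)) x = (h : Equiv.Perm (Fin d)) x)
    (h2 : (g : Equiv.Perm (Fin d)) y = (h : Equiv.Perm (Fin d)) y) : g = h := by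
  have h3 := hs ((h⁻¹ * g : Q) : Equiv.Perm (Fin d)) (h⁻¹ * g : Q).2 x y hxy
    (by simp [h1]) (by simp [h2])
  have h4 : h⁻¹ * g = 1 := Subtype.ext h3
  exact (inv_mul_eq_one.mp h4).symm

open Classical in
lemma fib (hd : 2 ≤ d)
    (ht : ∀ x y x' y' : Fin d, x ≠ y → x' ≠ y' → ∃ g ∈ Q, g x = x' ∧ g y = y')
    (hs : ∀ g ∈ Q, ∀ x y : Fin d, x ≠ y → g x = x → g y = y → g = 1) (x0 x : Fin d) :
    ((univ : Finset Q).filter (fun g : Q => (g : Equiv.Perm (Fin d)) x0 = x)).card = d - 1 := by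
  obtain ⟨x1, hx1⟩ : ∃ x1 : Fin d, x1 ≠ x0 := by
    haveI : Nontrivial (Fin d) := Fin.nontrivial_iff_two_le.mpr hd
    exact exists_ne x0
  have hc : ((univ : Finset (Fin d)).erase x).card = d - 1 := by
    rw [card_erase_of_mem (mem_univ x)]; simp
  rw [← hc]
  refine Finset.card_bij (fun g _ => (g : Equiv.Perm (Fin d)) x1) ?_ ?_ ?_
  · intro g hg
    simp only [mem_filter, mem_univ, true_and] at hg
    simp only [mem_erase, mem_univ, and_true]
    rw [← hg]
    intro h
    exact hx1 ((g : Equiv.Perm (Fin d)).injective h)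
  · intro g hg h hh e
    simp only [mem_filter, mem_univ, true_and] at hg hh
    exact eqOf hs g h x0 x1 hx1.symm (hg.trans hh.symm) e
  · intro z hz
    simp only [mem_erase, mem_univ, and_true] at hz
    obtain ⟨g, hg, h1, h2⟩ := ht x0 x1 x z hx1.symm hz.symm
    exact ⟨⟨g, hg⟩, by simp [h1], by simp [h2]⟩

open Classical in
lemma cardQ (hd : 2 ≤ d)
    (ht : ∀ x y x' y' : Fin d, x ≠ y → x' ≠ y' → ∃ g ∈ Q, g x = x' ∧ g y = y')
    (hs : ∀ g ∈ Q, ∀ x y : Fin d, x ≠ y → g x = x → g y = y → g = 1) :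
    (univ : Finset Q).card = d * (d - 1) := by
  have x0 : Fin d := ⟨0, by omega⟩
  rw [Finset.card_eq_sum_card_fiberwise (f := fun g : Q => (g : Equiv.Perm (Fin d)) x0)
    (t := univ) (fun _ _ => mem_coe.mpr (mem_univ _))]
  rw [Finset.sum_congr rfl (fun x _ => fib hd ht hs x0 x)]
  simp

open Classical in
/-- the derangements -/
noncomputable def D (Q : Subgroup (Equiv.Perm (Fin d))) : Finset Q :=
  (univ : Finset Q).filter (fun g : Q => ∀ x, (g : Equiv.Perm (Fin d)) x ≠ x)

open Classical in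
lemma cardD (hd : 2 ≤ d)
    (ht : ∀ x y x' y' : Fin d, x ≠ y → x' ≠ y' → ∃ g ∈ Q, g x = x' ∧ g y = y')
    (hs : ∀ g ∈ Q, ∀ x y : Fin d, x ≠ y → g x = x → g y = y → g = 1) :
    (D Q).card = d - 1 := by
  let S : Fin d → Finset Q := fun x =>
    ((univ : Finset Q).filter (fun g : Q => (g : Equiv.Perm (Fin d)) x = x)).erase 1
  have hS : ∀ x, (S x).card = d - 2 := by
    intro x
    show (((univ : Finset Q).filter (fun g : Q => (g : Equiv.Perm (Fin d)) x = x)).erase 1).card
      = d - 2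
    rw [card_erase_of_mem (by simp), fib hd ht hs x x]
    omega
  have hdis : ∀ x ∈ (univ : Finset (Fin d)), ∀ y ∈ (univ : Finset (Fin d)), x ≠ y →
      Disjoint (S x) (S y) := by
    intro x _ y _ hxy
    rw [Finset.disjoint_left]
    intro g hgx hgy
    simp only [S, mem_erase, mem_filter, mem_univ, true_and] at hgx hgy
    apply hgx.1
    exact Subtype.ext (hs g g.2 x y hxy hgx.2 hgy.2)
  have hU : (univ : Finset Q) = (D Q) ∪ insert 1 (univ.biUnion S) := by
    ext g
    simp only [mem_univ, D, S, mem_union, mem_filter, true_and, mem_insert, mem_biUnion, mem_erase,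
      true_iff]
    by_cases h1 : g = 1
    · right; left; exact h1
    · by_cases h2 : ∃ x, (g : Equiv.Perm (Fin d)) x = x
      · obtain ⟨x, hx⟩ := h2
        right; right; exact ⟨x, h1, hx⟩
      · left
        intro x hx
        exact h2 ⟨x, hx⟩
  have hdj : Disjoint (D Q) (insert 1 (univ.biUnion S)) := by
    rw [Finset.disjoint_left]
    intro g hg hg'
    simp only [D, S, mem_filter, mem_univ, true_and, mem_insert, mem_biUnion, mem_erase] at hg hg'
    rcases hg' with h1 | ⟨x, _, hx⟩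
    · have x0 : Fin d := ⟨0, by omega⟩
      exact hg x0 (by rw [h1]; rfl)
    · exact hg x hx
  have h1 : (1 : Q) ∉ univ.biUnion S := by
    simp [S]
  have hcard := cardQ hd ht hs
  rw [hU, card_union_of_disjoint hdj, card_insert_of_notMem h1,
    card_biUnion hdis, Finset.sum_congr rfl (fun x _ => hS x)] at hcard
  simp only [sum_const, card_univ, Fintype.card_fin, smul_eq_mul] at hcard
  obtain ⟨e, rfl⟩ : ∃ e, d = e + 2 := ⟨d - 2, by omega⟩
  have e1 : e + 2 - 2 = e := by omega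
  have e2 : e + 2 - 1 = e + 1 := by omega
  rw [e1, e2] at hcard
  rw [e2]
  nlinarith

open Classical in
lemma conj_all (hd : 2 ≤ d)
    (ht : ∀ x y x' y' : Fin d, x ≠ y → x' ≠ y' → ∃ g ∈ Q, g x = x' ∧ g y = y')
    (hs : ∀ g ∈ Q, ∀ x y : Fin d, x ≠ y → g x = x → g y = y → g = 1) (g g' : Q)
    (hg : g ∈ D Q) (hg' : g' ∈ D Q) : ∃ h : Q, h * g * h⁻¹ = g' := by
  have x0 : Fin d := ⟨0, by omega⟩
  have hgd : ∀ x, (g : Equiv.Perm (Fin d)) x ≠ x := by
    simpa [D] using hg
  have hsub : (univ : Finset Q).image (fun h => h * g * h⁻¹) ⊆ D Q := by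
    intro k hk
    simp only [mem_image, mem_univ, true_and] at hk
    obtain ⟨h, rfl⟩ := hk
    simp only [D, mem_filter, mem_univ, true_and]
    intro x hx
    apply hgd ((h : Equiv.Perm (Fin d))⁻¹ x)
    have h5 : (h : Equiv.Perm (Fin d)) ((g : Equiv.Perm (Fin d)) ((h : Equiv.Perm (Fin d))⁻¹ x))
      = x := by
      simpa using hx
    rw [Equiv.Perm.eq_inv_iff_eq]
    exact h5
  have hle : (univ : Finset Q).card ≤
      d * ((univ : Finset Q).image (fun h => h * g * h⁻¹)).card := by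
    apply Finset.card_le_mul_card_image
    intro a _
    have : ((univ : Finset Q).filter (fun h => h * g * h⁻¹ = a)).card ≤
        (univ : Finset (Fin d)).card := by
      apply Finset.card_le_card_of_injOn (fun h : Q => (h : Equiv.Perm (Fin d)) x0)
      · intro h _
        simp
      · intro h hh k hk e
        simp only [coe_filter, mem_univ, true_and, Set.mem_setOf_eq] at hh hk
        have hc : k⁻¹ * h * g = g * (k⁻¹ * h) := by
          have h6 : h * g * h⁻¹ = k * g * k⁻¹ := hh.trans hk.symm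
          have h7 : h * g = k * g * k⁻¹ * h := by rw [← h6]; group
          calc k⁻¹ * h * g = k⁻¹ * (h * g) := by group
            _ = g * (k⁻¹ * h) := by rw [h7]; group
        have e' : (h : Equiv.Perm (Fin d)) x0 = (k : Equiv.Perm (Fin d)) x0 := e
        have h8 : ((k⁻¹ * h : Q) : Equiv.Perm (Fin d)) x0 = x0 := by
          simp [e']
        have h9 : ((k⁻¹ * h : Q) : Equiv.Perm (Fin d)) ((g : Equiv.Perm (Fin d)) x0) =
            (g : Equiv.Perm (Fin d)) x0 := by
          have h10 : ((k⁻¹ * h * g : Q) : Equiv.Perm (Fin d)) x0 =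
            ((g * (k⁻¹ * h) : Q) : Equiv.Perm (Fin d)) x0 := by rw [hc]
          have h11 : ((k⁻¹ * h : Q) : Equiv.Perm (Fin d)) ((g : Equiv.Perm (Fin d)) x0) =
            (g : Equiv.Perm (Fin d)) (((k⁻¹ * h : Q) : Equiv.Perm (Fin d)) x0) := h10
          rw [h11, h8]
        have h12 := hs _ (k⁻¹ * h : Q).2 x0 _ (hgd x0).symm h8 h9
        have h13 : k⁻¹ * h = 1 := Subtype.ext h12
        exact (inv_mul_eq_one.mp h13).symm
    simpa using this
  rw [cardQ hd ht hs] at hle
  have hle2 : d - 1 ≤ ((univ : Finset Q).image (fun h => h * g * h⁻¹)).card :=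
    Nat.le_of_mul_le_mul_left hle (by omega)
  have heq := Finset.eq_of_subset_of_card_le hsub (by rw [cardD hd ht hs]; exact hle2)
  rw [← heq] at hg'
  simpa using hg'

lemma exD (hd : 2 ≤ d)
    (ht : ∀ x y x' y' : Fin d, x ≠ y → x' ≠ y' → ∃ g ∈ Q, g x = x' ∧ g y = y')
    (hs : ∀ g ∈ Q, ∀ x y : Fin d, x ≠ y → g x = x → g y = y → g = 1) (p : ℕ) (hp : p.Prime)
    (hpd : p ∣ d) : ∃ g : Q, orderOf g = p ∧ g ∈ D Q := by
  classical
  haveI := Fact.mk hp
  have hc : p ∣ Fintype.card Q := by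
    have := cardQ hd ht hs
    rw [Finset.card_univ] at this
    rw [this]
    exact Dvd.dvd.mul_right hpd _
  obtain ⟨g, hg⟩ := exists_prime_orderOf_dvd_card p hc
  refine ⟨g, hg, ?_⟩
  simp only [D, mem_filter, mem_univ, true_and]
  intro x hx
  -- the stabilizer of x has order d - 1
  let S : Subgroup Q :=
    { carrier := {h | (h : Equiv.Perm (Fin d)) x = x}
      mul_mem' := by
        intro a b ha hb
        have ha' : (a : Equiv.Perm (Fin d)) x = x := ha
        have hb' : (b : Equiv.Perm (Fin d)) x = x := hb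
        show (a : Equiv.Perm (Fin d)) ((b : Equiv.Perm (Fin d)) x) = x
        rw [hb', ha']
      one_mem' := rfl
      inv_mem' := by
        intro a ha
        have ha' : (a : Equiv.Perm (Fin d)) x = x := ha
        show (a : Equiv.Perm (Fin d))⁻¹ x = x
        rw [Equiv.Perm.inv_eq_iff_eq]
        exact ha'.symm }
  have hSc : Nat.card S = d - 1 := by
    have h1 : Nat.card S = Nat.card {h : Q // (h : Equiv.Perm (Fin d)) x = x} := rfl
    rw [h1, Nat.card_eq_fintype_card, Fintype.card_subtype]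
    exact fib hd ht hs x x
  have hgS : g ∈ S := hx
  have h2 : orderOf (⟨g, hgS⟩ : S) ∣ Nat.card S := orderOf_dvd_natCard _
  have h3 : orderOf (⟨g, hgS⟩ : S) = p := by
    rw [← hg]
    exact Subgroup.orderOf_mk g hgS
  rw [h3, hSc] at h2
  have h4 : p ∣ 1 := by
    have : p ∣ d - (d - 1) := Nat.dvd_sub hpd h2
    have e : d - (d - 1) = 1 := by omega
    rwa [e] at this
  exact hp.one_lt.ne' (Nat.dvd_one.mp h4)

theorem main : StmP2 := by
  intro d Q hd ht hs
  rw [isPrimePow_iff_unique_prime_dvd]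
  refine ⟨d.minFac, ⟨Nat.minFac_prime (by omega), Nat.minFac_dvd d⟩, ?_⟩
  rintro q ⟨hq, hqd⟩
  obtain ⟨g, hg, hgD⟩ := exD hd ht hs q hq hqd
  obtain ⟨g', hg', hgD'⟩ := exD hd ht hs d.minFac (Nat.minFac_prime (by omega)) (Nat.minFac_dvd d)
  obtain ⟨h, hh⟩ := conj_all hd ht hs g g' hgD hgD'
  rw [← hg, ← hg', ← hh]
  have : h * g * h⁻¹ = MulAut.conj h g := rfl
  rw [this]
  exact (MulEquiv.orderOf_eq (MulAut.conj h) g).symm

end R14.FX.P2
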