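import Pool.Agent.R14.FX.Defs

set_option autoImplicit false

namespace R14.FX.S

open R14.FX Finset Filter Topology

theorem cst_succ (d n : ℕ) : cst d (n + 1) = cst d n + 1 / (d : ℝ) ^ (2 * n + 1) := by
  unfold cst
  rw [Finset.sum_range_succ']
  congr 1
  · apply Finset.sum_congr rfl
    intro j _
    rw [Nat.add_sub_add_right]

theorem cst_eq (d n : ℕ) (hd : 2 ≤ d) :
    cst d n = (d : ℝ) / ((d : ℝ) ^ 2 - 1) * (1 - (1 / (d : ℝ) ^ 2) ^ n) := by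
  have h0 : (2 : ℝ) ≤ d := by exact_mod_cast hd
  have h1 : (d : ℝ) ≠ 0 := by positivity
  have h2 : (d : ℝ) ^ 2 - 1 ≠ 0 := by nlinarith
  induction n with
  | zero => simp [cst]
  | succ n ih =>
    rw [cst_succ, ih]
    have h3 : (1 / (d : ℝ) ^ 2) ^ (n + 1) = (1 / (d : ℝ) ^ 2) ^ n * (1 / (d : ℝ) ^ 2) := pow_succ _ _
    have h4 : 1 / (d : ℝ) ^ (2 * n + 1) = (1 / (d : ℝ) ^ 2) ^ n * (1 / d) := by
      rw [one_div_pow, ← pow_mul, pow_succ]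
      field_simp
    rw [h3, h4]
    generalize (1 / (d : ℝ) ^ 2) ^ n = y
    field_simp
    ring

theorem main : StmS := by
  intro d hd
  have h0 : (2 : ℝ) ≤ d := by exact_mod_cast hd
  have h1 : (d : ℝ) ≠ 0 := by positivity
  have h2 : (d : ℝ) ^ 2 - 1 ≠ 0 := by nlinarith
  have h3 : Tendsto (fun n : ℕ => (1 / (d : ℝ) ^ 2) ^ n) atTop (𝓝 0) := by
    apply tendsto_pow_atTop_nhds_zero_of_lt_one
    · positivity
    · rw [div_lt_one (by positivity)]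
      nlinarith
  have h4 : Tendsto (fun n : ℕ => 1 - (d : ℝ) / ((d : ℝ) ^ 2 - 1) *
      (1 - (1 / (d : ℝ) ^ 2) ^ n)) atTop
      (𝓝 (1 - (d : ℝ) / ((d : ℝ) ^ 2 - 1) * (1 - 0))) :=
    (h3.const_sub 1).const_mul _ |>.const_sub 1
  have h5 : 1 - (d : ℝ) / ((d : ℝ) ^ 2 - 1) * (1 - 0) =
      ((d : ℝ) ^ 2 - d - 1) / ((d : ℝ) ^ 2 - 1) := by
    field_simp
    ring
  rw [h5] at h4
  refine h4.congr ?_
  intro n
  rw [cst_eq d n hd]

end R14.FX.S
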