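import Pool.Agent.R14.FX.Defs2

set_option autoImplicit false

namespace R14.FX.S2

open R14.FX Finset Filter Topology

lemma sum_eq (d n : ℕ) :
    ∑ j ∈ range n, 1 / (d : ℝ) ^ (2 * (n + 1 - j) - 1) =
      ∑ i ∈ range n, (1 / (d : ℝ) ^ 3) * (1 / (d : ℝ) ^ 2) ^ i := by
  rw [← Finset.sum_range_reflect]
  refine Finset.sum_congr rfl fun i hi => ?_
  rw [Finset.mem_range] at hi
  have e : 2 * (n + 1 - (n - 1 - i)) - 1 = 3 + 2 * i := by omega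
  rw [e, pow_add, pow_mul, one_div_pow]
  rw [one_div_mul_one_div]

theorem main : StmS2 := by
  intro d hd
  have hd' : (2 : ℝ) ≤ (d : ℝ) := by exact_mod_cast hd
  have hr0 : 0 ≤ 1 / (d : ℝ) ^ 2 := by positivity
  have hr1 : 1 / (d : ℝ) ^ 2 < 1 := by
    rw [div_lt_one (by positivity)]
    nlinarith
  have hs := (hasSum_geometric_of_lt_one hr0 hr1).tendsto_sum_nat
  have hs' : Tendsto (fun n => ∑ i ∈ range n, (1 / (d : ℝ) ^ 3) * (1 / (d : ℝ) ^ 2) ^ i) atTop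
      (𝓝 ((1 / (d : ℝ) ^ 3) * (1 - 1 / (d : ℝ) ^ 2)⁻¹)) := by
    have := hs.const_mul (1 / (d : ℝ) ^ 3)
    simpa only [Finset.mul_sum] using this
  have h1 : Tendsto (fun n => 1 - cst2 d n) atTop
      (𝓝 (1 - (1 / (d : ℝ) + 1 / ((d : ℝ) * (d.factorial : ℝ)) +
        (1 / (d : ℝ) ^ 3) * (1 - 1 / (d : ℝ) ^ 2)⁻¹))) := by
    unfold cst2
    simp only [sum_eq]
    exact (hs'.const_add _).const_sub 1
  convert h1 using 2
  have hf : (d.factorial : ℝ) ≠ 0 := by positivity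
  have hd0 : (d : ℝ) ≠ 0 := by positivity
  have hd1 : (d : ℝ) ^ 2 - 1 ≠ 0 := by nlinarith
  have hd2 : 1 - 1 / (d : ℝ) ^ 2 ≠ 0 := by
    have : 0 < 1 - 1 / (d : ℝ) ^ 2 := by linarith
    exact this.ne'
  have e : (1 - 1 / (d : ℝ) ^ 2)⁻¹ = (d : ℝ) ^ 2 / ((d : ℝ) ^ 2 - 1) := by
    rw [inv_eq_iff_eq_inv, inv_div]
    field_simp
  rw [e]
  field_simp
  ring

end R14.FX.S2
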