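import Pool.Agent.R14.FX.Defs

/-! Piece U of project FX: Burnside inequality. -/

set_option autoImplicit false

namespace R14.FX.U

open R14.FX Finset Filter Topology

/-- Burnside for one orbit -/
theorem burn_orbit {G X : Type} [Group G] [Fintype G] [MulAction G X] [Fintype X] [DecidableEq X]
    (x0 : X) [DecidablePred (fun x => x ∈ MulAction.orbit G x0)] :
    ∑ g : G, (univ.filter (fun x : X => x ∈ MulAction.orbit G x0 ∧ g • x = x)).card =
      Fintype.card G := by
  classical
  have h1 := MulAction.sum_card_fixedBy_eq_card_orbits_mul_card_group G (MulAction.orbit G x0)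
  have h2 : Fintype.card (Quotient (MulAction.orbitRel G (MulAction.orbit G x0))) = 1 := by
    haveI : Subsingleton (Quotient (MulAction.orbitRel G (MulAction.orbit G x0))) :=
      (MulAction.pretransitive_iff_subsingleton_quotient G (MulAction.orbit G x0)).1 inferInstance
    exact Fintype.card_eq_one_iff.2 ⟨Quotient.mk _ ⟨x0, MulAction.mem_orbit_self x0⟩,
      fun y => Subsingleton.elim _ _⟩
  rw [h2, one_mul] at h1
  rw [← h1]
  refine Finset.sum_congr rfl fun g _ => ?_
  rw [← Fintype.card_coe]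
  refine Fintype.card_congr
    { toFun := fun x => ⟨⟨x.1, (Finset.mem_filter.1 x.2).2.1⟩, ?_⟩
      invFun := fun y => ⟨y.1.1, Finset.mem_filter.2 ⟨Finset.mem_univ _, y.1.2, ?_⟩⟩
      left_inv := fun x => rfl
      right_inv := fun y => rfl }
  · exact Subtype.ext (Finset.mem_filter.1 x.2).2.2
  · exact congrArg Subtype.val y.2

/-- Burnside, inequality -/
theorem burn_ge {G X : Type} [Group G] [Fintype G] [MulAction G X] [Fintype X] [DecidableEq X]
    (P : X → Prop) [DecidablePred P] (hP : ∀ (g : G) x, P x → P (g • x)) (x0 : X) (h0 : P x0) :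
    Fintype.card G ≤ ∑ g : G, (univ.filter (fun x : X => P x ∧ g • x = x)).card := by
  classical
  rw [← burn_orbit (G := G) x0]
  refine Finset.sum_le_sum fun g _ => Finset.card_le_card ?_
  intro x hx
  rw [Finset.mem_filter] at hx ⊢
  obtain ⟨k, rfl⟩ := hx.2.1
  exact ⟨Finset.mem_univ _, hP k x0 h0, hx.2.2⟩

/-- Burnside, equality -/
theorem burn_eq {G X : Type} [Group G] [Fintype G] [MulAction G X] [Fintype X] [DecidableEq X]
    (P : X → Prop) [DecidablePred P] (hP : ∀ (g : G) x, P x → P (g • x))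
    (hT : ∀ x y : X, P x → P y → ∃ g : G, g • x = y) (x0 : X) (h0 : P x0) :
    ∑ g : G, (univ.filter (fun x : X => P x ∧ g • x = x)).card = Fintype.card G := by
  classical
  rw [← burn_orbit (G := G) x0]
  refine Finset.sum_congr rfl fun g _ => congrArg Finset.card ?_
  ext x
  rw [Finset.mem_filter, Finset.mem_filter]
  constructor
  · rintro ⟨h1, h2, h3⟩
    exact ⟨h1, hT x0 x h0 h2, h3⟩
  · rintro ⟨h1, ⟨k, rfl⟩, h3⟩
    exact ⟨h1, hP k x0 h0, h3⟩

section

variable {n d : ℕ} (H : Subgroup (Equiv.Perm (Fin n → Fin d)))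

open Classical in
/-- the fixed points -/
noncomputable def Fx (h : H) : Finset (Fin n → Fin d) :=
  univ.filter (fun x => (h : Equiv.Perm (Fin n → Fin d)) x = x)

open Classical in
theorem prs_eq (h : H) (j : ℕ) : prs (Fx H h) j =
    ((univ.filter (fun p : (Fin n → Fin d) × (Fin n → Fin d) =>
      FD p.1 p.2 j ∧ h • p = p)).card : ℝ) := by
  unfold prs
  congr 2
  ext p
  simp only [Fx, Finset.mem_filter, Finset.mem_product, Finset.mem_univ, true_and, Prod.ext_iff]
  constructor
  · rintro ⟨⟨h1, h2⟩, h3⟩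
    exact ⟨h3, h1, h2⟩
  · rintro ⟨h3, h1, h2⟩
    exact ⟨⟨h1, h2⟩, h3⟩

theorem FD_exists (hd : 2 ≤ d) (j : ℕ) (hj : j < n) :
    ∃ p : (Fin n → Fin d) × (Fin n → Fin d), FD p.1 p.2 j := by
  refine ⟨(fun _ => ⟨0, by omega⟩, fun i => if (i : ℕ) = j then ⟨1, by omega⟩ else ⟨0, by omega⟩),
    ?_, ⟨j, hj⟩, rfl, ?_⟩
  · intro i hi
    simp only
    rw [if_neg (by omega)]
  · simp

open Classical in
theorem sum_fix (hd : 2 ≤ d) (hT : ∀ x y, ∃ h ∈ H, h x = y) :
    ∑ h : H, ((Fx H h).card : ℝ) = Fintype.card H := by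
  have h1 := burn_eq (G := H) (X := Fin n → Fin d) (fun _ => True) (fun _ _ _ => trivial)
    (fun x y _ _ => by
      obtain ⟨h, hh, e⟩ := hT x y
      exact ⟨⟨h, hh⟩, e⟩) (fun _ => ⟨0, by omega⟩) trivial
  rw [← h1]
  push_cast
  refine Finset.sum_congr rfl fun h _ => ?_
  congr 2
  ext x
  simp only [Fx, Finset.mem_filter, Finset.mem_univ, true_and]
  exact Iff.rfl

open Classical in
theorem sum_prs_ge (hd : 2 ≤ d) (hF : ∀ h ∈ H, ∀ x y j, FD x y j → FD (h x) (h y) j) (j : ℕ)
    (hj : j < n) : (Fintype.card H : ℝ) ≤ ∑ h : H, prs (Fx H h) j := by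
  obtain ⟨p0, hp0⟩ := FD_exists (n := n) hd j hj
  have h1 := burn_ge (G := H) (X := (Fin n → Fin d) × (Fin n → Fin d))
    (fun p => FD p.1 p.2 j) (fun g p hp => hF g.1 g.2 _ _ _ hp) p0 hp0
  calc (Fintype.card H : ℝ) ≤ ((∑ g : H, (univ.filter
        (fun p : (Fin n → Fin d) × (Fin n → Fin d) => FD p.1 p.2 j ∧ g • p = p)).card : ℕ) : ℝ) := by
        exact_mod_cast h1
    _ = ∑ h : H, prs (Fx H h) j := by
        push_cast
        exact Finset.sum_congr rfl fun h _ => (prs_eq H h j).symm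

open Classical in
theorem sum_prs_eq (hd : 2 ≤ d) (hF : ∀ h ∈ H, ∀ x y j, FD x y j → FD (h x) (h y) j) (j : ℕ)
    (hj : j < n) (hT : ∀ (x y x' y' : Fin n → Fin d), FD x y j → FD x' y' j →
      ∃ h ∈ H, h x = x' ∧ h y = y') : ∑ h : H, prs (Fx H h) j = Fintype.card H := by
  obtain ⟨p0, hp0⟩ := FD_exists (n := n) hd j hj
  have h1 := burn_eq (G := H) (X := (Fin n → Fin d) × (Fin n → Fin d))
    (fun p => FD p.1 p.2 j) (fun g p hp => hF g.1 g.2 _ _ _ hp) (fun p q hp hq => by
      obtain ⟨h, hh, e1, e2⟩ := hT p.1 p.2 q.1 q.2 hp hq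
      exact ⟨⟨h, hh⟩, Prod.ext e1 e2⟩) p0 hp0
  rw [← h1]
  push_cast
  exact Finset.sum_congr rfl fun h _ => prs_eq H h j

open Classical in
theorem sum_ne : ∑ h : H, (if (Fx H h).Nonempty then (1 : ℝ) else 0) =
    (Nat.card {h : H // ∃ x, (h : Equiv.Perm (Fin n → Fin d)) x = x} : ℝ) := by
  rw [Finset.sum_ite, Finset.sum_const_zero, add_zero, Finset.sum_const, nsmul_eq_mul, mul_one,
    Nat.card_eq_fintype_card, Fintype.card_subtype]
  congr 2
  ext h
  simp only [Finset.mem_filter, Finset.mem_univ, true_and, Fx, Finset.Nonempty]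

end

theorem main : StmD → StmU := by
  intro hD n d H hd hF hT
  classical
  have hpos : (0 : ℝ) < Fintype.card H := by exact_mod_cast Fintype.card_pos
  have h1 : ∑ h : H, wsum (Fx H h) ≤
      (Fintype.card H : ℝ) - (Nat.card {h : H // ∃ x, (h : Equiv.Perm (Fin n → Fin d)) x = x} : ℝ) := by
    rw [← sum_ne, ← sum_fix H hd hT, ← Finset.sum_sub_distrib]
    refine Finset.sum_le_sum fun h _ => ?_
    have := hD n d (Fx H h) (by omega)
    convert this
  have h2 : (Fintype.card H : ℝ) * cst d n ≤ ∑ h : H, wsum (Fx H h) := by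
    unfold wsum cst
    rw [Finset.sum_comm, Finset.mul_sum]
    refine Finset.sum_le_sum fun j hj => ?_
    rw [← Finset.mul_sum, mul_comm]
    exact mul_le_mul_of_nonneg_left (sum_prs_ge H hd hF j (Finset.mem_range.1 hj)) (by positivity)
  unfold fixProp
  rw [Nat.card_eq_fintype_card (α := H), div_le_iff₀ hpos]
  nlinarith [h1, h2]

/-- the version with equality -/
theorem mainV : StmE → StmV := by
  intro hE n d H hd hF hT hT2 hB
  classical
  have hpos : (0 : ℝ) < Fintype.card H := by exact_mod_cast Fintype.card_pos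
  have h1 : ∑ h : H, wsum (Fx H h) =
      (Fintype.card H : ℝ) - (Nat.card {h : H // ∃ x, (h : Equiv.Perm (Fin n → Fin d)) x = x} : ℝ) := by
    rw [← sum_ne, ← sum_fix H hd hT, ← Finset.sum_sub_distrib]
    refine Finset.sum_congr rfl fun h _ => ?_
    have := hE n d (Fx H h) (by omega) (by
      have h3 := hB h.1 h.2
      unfold Fx
      convert h3)
    convert this
  have h2 : (Fintype.card H : ℝ) * cst d n = ∑ h : H, wsum (Fx H h) := by
    unfold wsum cst
    rw [Finset.sum_comm, Finset.mul_sum]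
    refine Finset.sum_congr rfl fun j hj => ?_
    rw [← Finset.mul_sum, mul_comm, sum_prs_eq H hd hF j (Finset.mem_range.1 hj)
      (fun x y x' y' => hT2 x y x' y' j)]
  unfold fixProp
  rw [Nat.card_eq_fintype_card (α := H), div_eq_iff hpos.ne']
  linarith [h1, h2]

end R14.FX.U
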