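import Pool.Agent.R14.FX.Defs2
import Pool.Agent.R14.FX.U
import Pool.Agent.R14.FX.M

/-! Piece U2 of project FX: Burnside inequality with the excess at the last level. -/

set_option autoImplicit false

namespace R14.FX.U2

open R14.FX R14.FX.U Finset Filter Topology

variable {n d : ℕ}

/-- append a letter -/
def sn (v : Fin n → Fin d) (a : Fin d) : Fin (n + 1) → Fin d := Fin.snoc v a

/-- remove the last letter -/
def ini (x : Fin (n + 1) → Fin d) : Fin n → Fin d := fun i => x i.castSucc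

theorem ini_sn (v : Fin n → Fin d) (a : Fin d) : ini (sn v a) = v := by
  funext i
  exact Fin.snoc_castSucc (α := fun _ => Fin d) _ _ _

theorem sn_last (v : Fin n → Fin d) (a : Fin d) : sn v a (Fin.last n) = a :=
  Fin.snoc_last (α := fun _ => Fin d) _ _

theorem sn_ini (x : Fin (n + 1) → Fin d) : sn (ini x) (x (Fin.last n)) = x :=
  Fin.snoc_init_self (α := fun _ => Fin d) x

theorem eq_sn {x : Fin (n + 1) → Fin d} {v : Fin n → Fin d} (h : ini x = v) :
    sn v (x (Fin.last n)) = x := by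
  rw [← h]
  exact sn_ini x

theorem ini_fd {x y : Fin (n + 1) → Fin d} (h : ini x ≠ ini y) : ∃ j < n, FD x y j := by
  classical
  have hex : ∃ j : ℕ, ∃ i : Fin n, (i : ℕ) = j ∧ x i.castSucc ≠ y i.castSucc := by
    by_contra hc
    push Not at hc
    exact h (funext fun i => hc i i rfl)
  obtain ⟨i, hi, hne⟩ := Nat.find_spec hex
  refine ⟨Nat.find hex, hi ▸ i.2, fun k hk => ?_, i.castSucc, hi, hne⟩
  have hkn : (k : ℕ) < n := lt_trans hk (hi ▸ i.2)
  have h1 := Nat.find_min hex hk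
  push Not at h1
  exact h1 ⟨k, hkn⟩ rfl

theorem fd_ini {x y : Fin (n + 1) → Fin d} {j : ℕ} (hj : j < n) (h : FD x y j) :
    ini x ≠ ini y := by
  obtain ⟨-, i, hi, hne⟩ := h
  intro hc
  have h1 := congrFun hc ⟨j, hj⟩
  apply hne
  have e : i = (⟨j, hj⟩ : Fin n).castSucc := Fin.ext hi
  rw [e]
  exact h1

section

variable (H : Subgroup (Equiv.Perm (Fin (n + 1) → Fin d)))
  (hF : ∀ h ∈ H, ∀ x y j, FD x y j → FD (h x) (h y) j)

include hF in
theorem ind {h : Equiv.Perm (Fin (n + 1) → Fin d)} (hh : h ∈ H) {x y : Fin (n + 1) → Fin d}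
    (hxy : ini x = ini y) : ini (h x) = ini (h y) := by
  by_contra hc
  obtain ⟨j, hj, h1⟩ := ini_fd hc
  have h2 := hF h⁻¹ (H.inv_mem hh) _ _ _ h1
  have e : ∀ z, h⁻¹ (h z) = z := fun z => h.symm_apply_apply z
  rw [e, e] at h2
  exact fd_ini hj h2 hxy

/-- the stabilizer of a word of length `n` -/
def Sv (v : Fin n → Fin d) : Subgroup H where
  carrier := {h | ∀ a, ini (h.1 (sn v a)) = v}
  mul_mem' := by
    intro h k hh hk a
    have e := eq_sn (hk a)
    show ini (h.1 (k.1 (sn v a))) = v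
    rw [← e]
    exact hh _
  one_mem' := fun a => ini_sn v a
  inv_mem' := by
    intro h hh a
    show ini (h.1⁻¹ (sn v a)) = v
    have h1 : ini (h.1 (sn v a)) = ini (sn v a) := by rw [hh a, ini_sn]
    have h2 := ind H hF (H.inv_mem h.2) h1
    have e : ∀ z, h.1⁻¹ (h.1 z) = z := fun z => h.1.symm_apply_apply z
    rw [e, ini_sn] at h2
    exact h2.symm

/-- the action on the last letter -/
@[reducible] def actB (v : Fin n → Fin d) : MulAction (Sv H hF v) (Fin d) where
  smul h a := (h.1.1 (sn v a)) (Fin.last n)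
  one_smul a := sn_last v a
  mul_smul h k a := by
    show (h.1.1 (k.1.1 (sn v a))) (Fin.last n)
      = (h.1.1 (sn v ((k.1.1 (sn v a)) (Fin.last n)))) (Fin.last n)
    rw [eq_sn (k.2 a)]

/-- number of fixed extensions -/
def cv (v : Fin n → Fin d) (h : H) : ℕ := (univ.filter fun a : Fin d => h.1 (sn v a) = sn v a).card

theorem cv_zero (v : Fin n → Fin d) (h : H) (hh : h ∉ Sv H hF v) : cv H v h = 0 := by
  unfold cv
  rw [Finset.card_eq_zero, Finset.filter_eq_empty_iff]
  intro a _ ha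
  apply hh
  intro b
  have h1 : ini (sn v b) = ini (sn v a) := by rw [ini_sn, ini_sn]
  rw [ind H hF h.2 h1, ha, ini_sn]

theorem smul_iff (v : Fin n → Fin d) (h : Sv H hF v) (a : Fin d) :
    (letI := actB H hF v; h • a = a) ↔ h.1.1 (sn v a) = sn v a := by
  show (h.1.1 (sn v a)) (Fin.last n) = a ↔ _
  constructor
  · intro h1
    have h2 := eq_sn (h.2 a)
    rw [h1] at h2
    exact h2.symm
  · intro h1
    rw [h1, sn_last]

open Classical in
theorem burn (hT : ∀ x y, ∃ h ∈ H, h x = y) (hd : 2 ≤ d) (v : Fin n → Fin d) :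
    ∑ h : Sv H hF v, cv H v h.1 = Fintype.card (Sv H hF v) := by
  let _ := actB H hF v
  have h1 := burn_eq (G := Sv H hF v) (X := Fin d) (fun _ => True) (fun _ _ _ => trivial)
    (fun a b _ _ => by
      obtain ⟨h, hh, e⟩ := hT (sn v a) (sn v b)
      refine ⟨⟨⟨h, hh⟩, fun c => ?_⟩, ?_⟩
      · have h2 : ini (sn v c) = ini (sn v a) := by rw [ini_sn, ini_sn]
        show ini (h (sn v c)) = v
        rw [ind H hF hh h2, e, ini_sn]
      · show (h (sn v a)) (Fin.last n) = b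
        rw [e, sn_last]) (⟨0, by omega⟩ : Fin d) trivial
  rw [← h1]
  refine Finset.sum_congr rfl fun h _ => ?_
  unfold cv
  congr 1
  ext a
  rw [Finset.mem_filter, Finset.mem_filter]
  constructor
  · rintro ⟨-, h2⟩
    exact ⟨Finset.mem_univ _, trivial, (smul_iff H hF v h a).mpr h2⟩
  · rintro ⟨-, -, h2⟩
    exact ⟨Finset.mem_univ _, (smul_iff H hF v h a).mp h2⟩

open Classical in
theorem gap_one (hG : StmG2) (hT : ∀ x y, ∃ h ∈ H, h x = y) (hd : 2 ≤ d) (hp : ¬ IsPrimePow d)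
    (v : Fin n → Fin d) :
    (1 / (d : ℝ) + 1 / ((d : ℝ) * (d.factorial : ℝ))) * (Fintype.card (Sv H hF v) : ℝ)
      ≤ ∑ h : Sv H hF v, ((cv H v h.1 - 1 : ℕ) : ℝ) := by
  let _ := actB H hF v
  let φ : Sv H hF v →* Equiv.Perm (Fin d) := MulAction.toPermHom (Sv H hF v) (Fin d)
  have h1 := hG d φ.range hd hp (fun a b => by
      obtain ⟨h, hh, e⟩ := hT (sn v a) (sn v b)
      refine ⟨φ ⟨⟨h, hh⟩, fun c => ?_⟩, ⟨_, rfl⟩, ?_⟩
      · have h2 : ini (sn v c) = ini (sn v a) := by rw [ini_sn, ini_sn]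
        show ini (h (sn v c)) = v
        rw [ind H hF hh h2, e, ini_sn]
      · show (h (sn v a)) (Fin.last n) = b
        rw [e, sn_last])
  have h2 := M.count φ.rangeRestrict φ.rangeRestrict_surjective
    (fun h => ∃ a, h.1.1 (sn v a) = sn v a)
    (fun q => ∃ a, (q : Equiv.Perm (Fin d)) a = a) (fun h ⟨a, ha⟩ =>
      ⟨a, (smul_iff H hF v h a).mpr ha⟩)
  have h3 : (Nat.card {h : Sv H hF v // ∃ a, h.1.1 (sn v a) = sn v a} : ℝ)
      / Nat.card (Sv H hF v) ≤ 1 - (1 / (d : ℝ) + 1 / ((d : ℝ) * (d.factorial : ℝ))) := h2.trans h1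
  have hpos : (0 : ℝ) < Fintype.card (Sv H hF v) := by exact_mod_cast Fintype.card_pos
  rw [Nat.card_eq_fintype_card (α := Sv H hF v), div_le_iff₀ hpos] at h3
  have h4 : ∑ h : Sv H hF v, ((cv H v h.1 - 1 : ℕ) : ℝ)
      = ∑ h : Sv H hF v, ((cv H v h.1 : ℕ) : ℝ)
        - (Nat.card {h : Sv H hF v // ∃ a, h.1.1 (sn v a) = sn v a} : ℝ) := by
    have h5 : (Nat.card {h : Sv H hF v // ∃ a, h.1.1 (sn v a) = sn v a} : ℝ)
        = ∑ h : Sv H hF v, if ∃ a, h.1.1 (sn v a) = sn v a then (1 : ℝ) else 0 := by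
      rw [Finset.sum_boole, Nat.card_eq_fintype_card, Fintype.card_subtype]
    rw [h5, ← Finset.sum_sub_distrib]
    refine Finset.sum_congr rfl fun h _ => ?_
    split_ifs with hex
    · have h6 : 1 ≤ cv H v h.1 := by
        obtain ⟨a, ha⟩ := hex
        exact Finset.card_pos.mpr ⟨a, Finset.mem_filter.mpr ⟨Finset.mem_univ _, ha⟩⟩
      rw [Nat.cast_sub h6, Nat.cast_one]
    · have h6 : cv H v h.1 = 0 := by
        unfold cv
        rw [Finset.card_eq_zero, Finset.filter_eq_empty_iff]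
        intro a _ ha
        exact hex ⟨a, ha⟩
      rw [h6]
      simp
  have h7 : ∑ h : Sv H hF v, ((cv H v h.1 : ℕ) : ℝ) = Fintype.card (Sv H hF v) := by
    have := burn H hF hT hd v
    exact_mod_cast this
  rw [h4, h7]
  linarith

open Classical in
theorem sum_sub (v : Fin n → Fin d) (f : ℕ → ℝ) (h0 : f 0 = 0) :
    ∑ h : H, f (cv H v h) = ∑ h : Sv H hF v, f (cv H v h.1) := by
  have h1 : ∑ h ∈ (univ : Finset H).filter (fun h => h ∈ Sv H hF v), f (cv H v h)
      = ∑ h : H, f (cv H v h) := by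
    refine Finset.sum_filter_of_ne fun h _ hne => ?_
    by_contra hc
    rw [cv_zero H hF v h hc] at hne
    exact hne h0
  rw [← h1]
  exact Finset.sum_subtype _ (fun h => by simp) _

open Classical in
theorem card_Fx (h : H) : ((Fx H h).card : ℝ) = ∑ v : Fin n → Fin d, (cv H v h : ℝ) := by
  have h1 : (Fx H h).card = ∑ v : Fin n → Fin d, cv H v h := by
    rw [Finset.card_eq_sum_card_fiberwise (f := ini) (t := univ) (fun _ _ => by simp)]
    refine Finset.sum_congr rfl fun v _ => ?_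
    unfold cv
    symm
    refine Finset.card_bij (fun a _ => sn v a) ?_ ?_ ?_
    · intro a ha
      rw [Finset.mem_filter] at ha ⊢
      refine ⟨?_, ini_sn v a⟩
      unfold Fx
      rw [Finset.mem_filter]
      exact ⟨Finset.mem_univ _, ha.2⟩
    · intro a _ b _ hab
      have h2 := congrFun hab (Fin.last n)
      rwa [sn_last, sn_last] at h2
    · intro x hx
      rw [Finset.mem_filter] at hx
      have h2 : h.1 x = x := by
        have h3 := hx.1
        unfold Fx at h3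
        exact (Finset.mem_filter.mp h3).2
      have h4 := eq_sn hx.2
      refine ⟨x (Fin.last n), ?_, h4⟩
      rw [Finset.mem_filter, h4]
      exact ⟨Finset.mem_univ _, h2⟩
  rw [h1]
  push_cast
  rfl

theorem lastEx_Fx (h : H) : lastEx (Fx H h) = ∑ v : Fin n → Fin d, ((cv H v h - 1 : ℕ) : ℝ) := by
  classical
  unfold lastEx
  refine Finset.sum_congr rfl fun v _ => ?_
  congr 2
  unfold cv
  congr 1
  ext a
  rw [Finset.mem_filter, Finset.mem_filter, Fx, Finset.mem_filter]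
  exact ⟨fun h1 => ⟨h1.1, h1.2.2⟩, fun h1 => ⟨h1.1, Finset.mem_univ _, h1.2⟩⟩

include hF in
open Classical in
theorem sum_last (hG : StmG2) (hT : ∀ x y, ∃ h ∈ H, h x = y) (hd : 2 ≤ d) (hp : ¬ IsPrimePow d) :
    (1 / (d : ℝ) + 1 / ((d : ℝ) * (d.factorial : ℝ))) * (Fintype.card H : ℝ)
      ≤ ∑ h : H, lastEx (Fx H h) := by
  have h1 : (Fintype.card H : ℝ) = ∑ v : Fin n → Fin d, (Fintype.card (Sv H hF v) : ℝ) := by
    rw [← sum_fix H hd hT, Finset.sum_congr rfl fun h _ => card_Fx H h, Finset.sum_comm]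
    refine Finset.sum_congr rfl fun v _ => ?_
    rw [sum_sub H hF v (fun k => (k : ℝ)) (by simp)]
    have := burn H hF hT hd v
    exact_mod_cast this
  rw [h1, Finset.mul_sum, Finset.sum_congr rfl fun h _ => lastEx_Fx H h, Finset.sum_comm]
  refine Finset.sum_le_sum fun v _ => ?_
  refine (gap_one H hF hG hT hd hp v).trans (le_of_eq ?_)
  exact (sum_sub H hF v (fun k => ((k - 1 : ℕ) : ℝ)) (by simp)).symm

end

theorem main : StmD2 → StmG2 → StmU2 := by
  intro hD hG n d H hd hp hF hT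
  classical
  have hpos : (0 : ℝ) < Fintype.card H := by exact_mod_cast Fintype.card_pos
  have h1 : ∑ h : H, (lastEx (Fx H h) + ∑ j ∈ range n,
      (1 / (d : ℝ) ^ (2 * (n + 1 - j) - 1)) * prs (Fx H h) j) ≤
      (Fintype.card H : ℝ) - (Nat.card {h : H // ∃ x,
        (h : Equiv.Perm (Fin (n + 1) → Fin d)) x = x} : ℝ) := by
    rw [← sum_ne, ← sum_fix H hd hT, ← Finset.sum_sub_distrib]
    refine Finset.sum_le_sum fun h _ => ?_
    have := hD n d (Fx H h) (by omega)
    convert this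
  have h2 : (Fintype.card H : ℝ) * ∑ j ∈ range n, 1 / (d : ℝ) ^ (2 * (n + 1 - j) - 1)
      ≤ ∑ h : H, ∑ j ∈ range n, (1 / (d : ℝ) ^ (2 * (n + 1 - j) - 1)) * prs (Fx H h) j := by
    rw [Finset.sum_comm, Finset.mul_sum]
    refine Finset.sum_le_sum fun j hj => ?_
    rw [← Finset.mul_sum, mul_comm]
    exact mul_le_mul_of_nonneg_left (sum_prs_ge H hd hF j
      (lt_trans (Finset.mem_range.1 hj) (Nat.lt_succ_self n))) (by positivity)
  have h3 := sum_last H hF hG hT hd hp
  rw [Finset.sum_add_distrib] at h1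
  unfold fixProp cst2
  rw [Nat.card_eq_fintype_card (α := H), div_le_iff₀ hpos]
  have e : (1 - (1 / (d : ℝ) + 1 / ((d : ℝ) * (d.factorial : ℝ))
      + ∑ j ∈ range n, 1 / (d : ℝ) ^ (2 * (n + 1 - j) - 1))) * (Fintype.card H : ℝ)
      = (Fintype.card H : ℝ)
        - (1 / (d : ℝ) + 1 / ((d : ℝ) * (d.factorial : ℝ))) * (Fintype.card H : ℝ)
        - (Fintype.card H : ℝ) * ∑ j ∈ range n, 1 / (d : ℝ) ^ (2 * (n + 1 - j) - 1) := by ring
  rw [e]
  linarith

end R14.FX.U2
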