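import Pool.Agent.R14.FX.Defs

/-!
Project FX, piece V: Burnside, equality.
-/

set_option autoImplicit false

namespace R14.FX.V

open R14.FX Finset Filter Topology

/-- Burnside for a transitive invariant subset. -/
theorem burn {G Y : Type} [Group G] [Fintype G] [MulAction G Y] [DecidableEq Y]
    (S : Finset Y) (hS : S.Nonempty) (hinv : ∀ g : G, ∀ y ∈ S, g • y ∈ S)
    (htr : ∀ y ∈ S, ∀ y' ∈ S, ∃ g : G, g • y = y') :
    ∑ g : G, (S.filter (fun y => g • y = y)).card = Fintype.card G := by
  obtain ⟨y0, h0⟩ := hS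
  have h1 : ∀ y ∈ S, (univ.filter (fun g : G => g • y = y)).card =
      (univ.filter (fun g : G => g • y0 = y)).card := by
    intro y hy
    obtain ⟨k, hk⟩ := htr y0 h0 y hy
    refine Finset.card_bij (fun g _ => g * k) ?_ ?_ ?_
    · intro g hg
      rw [mem_filter] at hg ⊢
      refine ⟨mem_univ _, ?_⟩
      rw [mul_smul, hk, hg.2]
    · intro a _ b _ hab
      exact mul_right_cancel hab
    · intro b hb
      rw [mem_filter] at hb
      refine ⟨b * k⁻¹, ?_, by simp⟩
      rw [mem_filter]
      refine ⟨mem_univ _, ?_⟩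
      rw [mul_smul]
      have : k⁻¹ • y = y0 := by rw [← hk, inv_smul_smul]
      rw [this, hb.2]
  calc ∑ g : G, (S.filter (fun y => g • y = y)).card
      = ∑ g : G, ∑ y ∈ S, if g • y = y then 1 else 0 :=
        Finset.sum_congr rfl fun g _ => Finset.card_filter _ _
    _ = ∑ y ∈ S, ∑ g : G, if g • y = y then 1 else 0 := Finset.sum_comm
    _ = ∑ y ∈ S, (univ.filter (fun g : G => g • y0 = y)).card := by
        refine Finset.sum_congr rfl fun y hy => ?_
        rw [← h1 y hy, Finset.card_filter]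
    _ = (univ : Finset G).card :=
        (Finset.card_eq_sum_card_fiberwise (fun g _ => hinv g y0 h0)).symm
    _ = Fintype.card G := Finset.card_univ

theorem exists_FD {n d : ℕ} (hd : 2 ≤ d) {j : ℕ} (hj : j < n) :
    ∃ x y : Fin n → Fin d, FD x y j := by
  refine ⟨fun _ => ⟨0, by omega⟩, fun i => if (i : ℕ) = j then ⟨1, by omega⟩ else ⟨0, by omega⟩,
    ?_, ⟨j, hj⟩, rfl, ?_⟩
  · intro i hi
    show _ = (if (i : ℕ) = j then _ else _)
    rw [if_neg (by omega)]
  · show _ ≠ (if j = j then _ else _)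
    rw [if_pos rfl]
    intro h
    have := congrArg Fin.val h
    simp at this

/-- piece V -/
theorem main : StmE → StmV := by
  intro hE n d H hd hFD htr htr2 hball
  classical
  have _ : Finite H := inferInstance
  let _ : Fintype H := Fintype.ofFinite H
  let F : H → Finset (Fin n → Fin d) := fun h => univ.filter (fun x => (h : Equiv.Perm (Fin n → Fin d)) x = x)
  have hmemF : ∀ h x, x ∈ F h ↔ (h : Equiv.Perm (Fin n → Fin d)) x = x := by
    intro h x; simp [F]
  have hb : ∀ h : H, BallOrEmpty (F h) := by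
    intro h
    have := hball h.1 h.2
    convert this
  have hw : ∀ h : H, wsum (F h) = ((F h).card : ℝ) - (if (F h).Nonempty then 1 else 0) :=
    fun h => by
      have := hE n d (F h) hd (hb h)
      rw [this]
  have hc1 : ∑ h : H, (F h).card = Fintype.card H := by
    have hne : (univ : Finset (Fin n → Fin d)).Nonempty := by
      refine ⟨fun _ => ⟨0, by omega⟩, mem_univ _⟩
    have := burn (G := H) (univ : Finset (Fin n → Fin d)) hne (fun g y _ => mem_univ _) (by
      intro y _ y' _
      obtain ⟨h, hh, hy⟩ := htr y y'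
      exact ⟨⟨h, hh⟩, hy⟩)
    rw [← this]
    refine Finset.sum_congr rfl fun h _ => ?_
    congr 1
  have hc2 : ∀ j < n, ∑ h : H, prs (F h) j = (Fintype.card H : ℝ) := by
    intro j hj
    let S : Finset ((Fin n → Fin d) × (Fin n → Fin d)) := univ.filter (fun p => FD p.1 p.2 j)
    have hmS : ∀ p, p ∈ S ↔ FD p.1 p.2 j := by
      intro p; simp [S]
    obtain ⟨x, y, hxy⟩ := exists_FD (n := n) hd hj
    have := burn (G := H) S ⟨(x, y), (hmS _).2 hxy⟩ (by
      intro g p hp
      rw [hmS] at hp ⊢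
      exact hFD g.1 g.2 _ _ _ hp) (by
      intro p hp p' hp'
      rw [hmS] at hp hp'
      obtain ⟨h, hh, h1, h2⟩ := htr2 _ _ _ _ j hp hp'
      exact ⟨⟨h, hh⟩, Prod.ext h1 h2⟩)
    rw [← this]
    push_cast
    refine Finset.sum_congr rfl fun h _ => ?_
    unfold prs
    congr 1
    apply congrArg
    ext p
    rw [mem_filter, mem_filter, mem_product, hmS, hmemF, hmemF]
    constructor
    · rintro ⟨⟨h1, h2⟩, h3⟩
      exact ⟨h3, Prod.ext h1 h2⟩
    · rintro ⟨h3, h4⟩
      exact ⟨⟨congrArg Prod.fst h4, congrArg Prod.snd h4⟩, h3⟩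
  have hL : ∑ h : H, wsum (F h) = (Fintype.card H : ℝ) * cst d n := by
    unfold wsum cst
    rw [Finset.sum_comm, Finset.mul_sum]
    refine Finset.sum_congr rfl fun j hj => ?_
    rw [← Finset.mul_sum, hc2 j (mem_range.1 hj)]
    ring
  have hcN : ∑ h : H, (if (F h).Nonempty then (1 : ℝ) else 0) =
      ((univ.filter (fun h : H => ∃ x, (h : Equiv.Perm (Fin n → Fin d)) x = x)).card : ℝ) := by
    rw [Finset.card_filter]
    push_cast
    refine Finset.sum_congr rfl fun h _ => ?_
    have : (F h).Nonempty ↔ ∃ x, (h : Equiv.Perm (Fin n → Fin d)) x = x := by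
      constructor
      · rintro ⟨x, hx⟩; exact ⟨x, (hmemF h x).1 hx⟩
      · rintro ⟨x, hx⟩; exact ⟨x, (hmemF h x).2 hx⟩
    by_cases hx : (F h).Nonempty
    · rw [if_pos hx, if_pos (this.1 hx)]
    · rw [if_neg hx, if_neg (fun h' => hx (this.2 h'))]
  have hR : ∑ h : H, wsum (F h) = (Fintype.card H : ℝ) -
      ((univ.filter (fun h : H => ∃ x, (h : Equiv.Perm (Fin n → Fin d)) x = x)).card : ℝ) := by
    rw [Finset.sum_congr rfl fun h _ => hw h, Finset.sum_sub_distrib, hcN, ← hc1]
    push_cast
    ring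
  have hpos : (0 : ℝ) < Fintype.card H := by
    exact_mod_cast Fintype.card_pos
  have hfix : fixProp H = ((univ.filter (fun h : H => ∃ x, (h : Equiv.Perm (Fin n → Fin d)) x = x)).card : ℝ) /
      Fintype.card H := by
    unfold fixProp
    rw [Nat.card_eq_fintype_card, Nat.card_eq_fintype_card, Fintype.card_subtype]
  rw [hfix, div_eq_iff hpos.ne']
  rw [hL] at hR
  linarith

end R14.FX.V
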